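import Pool.Agent.X227.MS.Main
import Pool.Agent.X227.MM.Tate

/-!
# Pairs of systems of classes on products: Galois actions and Hodge structures
-/

open CategoryTheory AlgebraicGeometry Finset Function
open Pool.Agent.Y132.EP (DG tow)

set_option linter.unusedSectionVars false

universe u v w

namespace Pool.Agent.X227.MS

open Pool.Agent.H914 Pool.Agent.H914.VarClass Pool.Agent.H914.VarClass.Obj
  Pool.Agent.H914.WeilCohomology Pool.Agent.H281R3.HT Pool.Agent.W552 Pool.Agent.TH125.Gal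
  Pool.Agent.Y132.AF Pool.Agent.Y132.AH Pool.Agent.X227.DN Pool.Agent.X227.MM

variable {k : Type u} [Field k] {𝒱 : VarClass k} {ops : CycleOps 𝒱}
  {W : WeilCohomology.{u, 0} ops} {Γ : Type} [Group Γ] {ι : Type} {χ : Γ →* W.Kˣ}

/-- The classes in `ℳ` are in `𝒩`, on the variety `Y` with the operator `E`. -/
def Sub (ℳ 𝒩 : ESys W) (Y : 𝒱.Obj) (E : W.H Y →ₗ[W.K] W.H Y) : Prop :=
  ∀ y ∈ ℳ.S Y E, y ∈ 𝒩.S Y E

/-- All components of the class `y` are Tate classes. -/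
def TateComp (χ : Γ →* W.Kˣ) (Y : GVar W Γ) (y : W.H Y.X) : Prop :=
  ∀ m, prj (W.isInternal Y.X) m y = 0 ∨ ∃ j, m = 2 * j ∧ ∃ Δ : Subgroup Γ, Δ.FiniteIndex ∧
    ∀ g ∈ Δ, Y.act g (prj (W.isInternal Y.X) m y) =
      (χ g : W.K) ^ j • prj (W.isInternal Y.X) m y

theorem tow_list {X' : ι → DG W Γ} {Z' : DG W Γ} {Λ : Type} (c : Λ → ι)
    (E : W.H Z'.X →ₗ[W.K] W.H Z'.X) (P : ∀ Y : 𝒱.Obj, (W.H Y →ₗ[W.K] W.H Y) → Prop)
    (l : List Λ) : P (tow X' Z' c l).X (towOp X' c E l) ↔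
      P (prodList (fun i => (X' i).X) Z'.X (l.map c))
        (listOp (fun i => (X' i).X) E (l.map c)) := by
  induction l generalizing P with
  | nil => exact Iff.rfl
  | cons s l ih => exact ih fun Y E => P ((X' (c s)).X.prod Y) (prodOp (X' (c s)).X E)

/-- **Pairs of systems of classes.** The finite set does not depend on the systems and on the
operator. -/
theorem sys_iff [IsAlgClosed W.K] [DecidableEq ι]
    (A : ∀ Y : 𝒱.Obj, Γ →* (W.H Y ≃ₐ[W.K] W.H Y)) {X : ι → 𝒱.Obj} {Z : 𝒱.Obj}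
    (hX : AdFamily χ fun i => (⟨X i, A (X i)⟩ : GVar W Γ))
    (hZ : GradedVar (⟨Z, A Z⟩ : GVar W Γ))
    (htow : ∀ (L : List ι) (Y : GVar W Γ),
      IsTower (fun i => (⟨X i, A (X i)⟩ : GVar W Γ)) ⟨Z, A Z⟩ L Y → Y = ⟨Y.X, A Y.X⟩) :
    ∃ B : Finset ι, ∑ i ∈ B, trRank (⟨X i, A (X i)⟩ : GVar W Γ) ≤
        totRank (⟨Z, A Z⟩ : GVar W Γ) ∧
      (∀ i ∈ B, StableBound χ (⟨X i, A (X i)⟩ : GVar W Γ) ⟨Z, A Z⟩) ∧
      ∀ (ℳ 𝒩 : ESys W) (E : W.H Z →ₗ[W.K] W.H Z) (L : List ι),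
        (∀ (Y : 𝒱.Obj) (E : W.H Y →ₗ[W.K] W.H Y), ∀ y ∈ ℳ.S Y E,
          TateComp χ (⟨Y, A Y⟩ : GVar W Γ) y) →
        (Sub ℳ 𝒩 (prodList X Z L) (listOp X E L) ↔ ∀ L' : List ι, L'.Sublist L →
          SmallList χ (fun i => (⟨X i, A (X i)⟩ : GVar W Γ)) ⟨Z, A Z⟩ B L' →
            Sub ℳ 𝒩 (prodList X Z L') (listOp X E L')) := by
  let X' : ι → DG W Γ := fun i => ⟨⟨X i, A (X i)⟩, (hX.var i).act.galois.gr_mem⟩
  let Z' : DG W Γ := ⟨⟨Z, A Z⟩, hZ⟩
  have hX' : Hy χ X' := ⟨fun i => isGalois (hX.var i).act.galois,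
    fun i => (hX.var i).homEqNum, fun i => (hX.var i).act.middle, fun i => (hX.var i).act.odd,
    fun i => (hX.var i).act.irreducible, fun i => (hX.var i).act.hyperbolic, hX.adjoint⟩
  obtain ⟨B, hBcard, hB, hBs⟩ := exists_BC hX' Z'
  refine ⟨B, hBcard, hBs, fun ℳ 𝒩 E L hfix => ⟨fun hT L' hsub _ => ?_, fun hT => ?_⟩⟩
  · -- subproducts
    have hone : ∀ i, (1 : W.H (X i)) ≠ 0 := by
      intro i h0
      obtain ⟨F, x, hx, y, hy, hx0, -⟩ := hX'.hyp i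
      apply hx0
      rw [← one_mul x]
      change (1 : W.H (X i)) * x = 0
      rw [h0, zero_mul]
    exact sys_sublist hX'.hom hone hsub hT
  · -- reduction to small lists
    have e : L = (List.finRange L.length).map L.get := by
      rw [← List.ofFn_eq_map, List.ofFn_get]
    have h1 := tow_list (X' := X') (Z' := Z') L.get E (fun Y E => Sub ℳ 𝒩 Y E)
      (List.finRange L.length)
    rw [← e] at h1
    refine h1.1 (main_sys hX' hB L.get (List.nodup_finRange _) (fun y hy => ?_)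
      fun l' hl' hsmall => ?_)
    · have h2 := htow _ _ (isTower_tow X' Z' L.get (List.finRange L.length))
      have h3 : ∀ (Y : GVar W Γ), Y = ⟨Y.X, A Y.X⟩ → ∀ (E : W.H Y.X →ₗ[W.K] W.H Y.X),
          ∀ y ∈ ℳ.S Y.X E, TateComp χ Y y := by
        intro Y hY
        rw [hY]
        exact hfix Y.X
      exact h3 _ h2 _ y hy
    · have h2 := (tow_list (X' := X') (Z' := Z') L.get E (fun Y E => Sub ℳ 𝒩 Y E) l').2
      refine h2 (hT _ ?_ hsmall)
      have h3 := hl'.map L.get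
      rwa [← e] at h3

end Pool.Agent.X227.MS
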