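import Pool.Agent.X227.MS.Gal

/-!
# Homological and numerical equivalence on products
-/

open CategoryTheory AlgebraicGeometry Finset Function
open Pool.Agent.Y132.EP (DG tow)

set_option linter.unusedSectionVars false

universe u v w

namespace Pool.Agent.X227.MS

open Pool.Agent.H914 Pool.Agent.H914.VarClass Pool.Agent.H914.VarClass.Obj
  Pool.Agent.H914.WeilCohomology Pool.Agent.H281R3.HT Pool.Agent.W552 Pool.Agent.TH125.Gal
  Pool.Agent.Y132.AF Pool.Agent.Y132.AH Pool.Agent.X227.DN Pool.Agent.X227.MM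

variable {k : Type u} [Field k] {𝒱 : VarClass k} {ops : CycleOps 𝒱}
  {W : WeilCohomology.{u, 0} ops} {Γ : Type} [Group Γ] {ι : Type}

/-- The elements fixed by a linear map. -/
def fixed {Y : 𝒱.Obj} (E : W.H Y →ₗ[W.K] W.H Y) : Submodule W.K (W.H Y) :=
  LinearMap.eqLocus E LinearMap.id

theorem mem_fixed {Y : 𝒱.Obj} {E : W.H Y →ₗ[W.K] W.H Y} {y : W.H Y} :
    y ∈ fixed E ↔ E y = y := Iff.rfl

theorem fixed_id {Y : 𝒱.Obj} : fixed (LinearMap.id : W.H Y →ₗ[W.K] W.H Y) = ⊤ := by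
  rw [eq_top_iff]
  exact fun y _ => rfl

/-- The numerically trivial classes which are fixed by the operator. -/
def radSys (W : WeilCohomology.{u, 0} ops) : ESys W where
  S Y E := Rad W Y ⊓ fixed E
  mul_mem := fun ha hc hy => ⟨rad_mul ha hy.1, mem_fixed.2 (by
    rw [hc, mem_fixed.1 hy.2])⟩
  map_mem := fun f _ _ _ hf hy => ⟨rad_map f hy.1, mem_fixed.2 (by
    rw [← hf, mem_fixed.1 hy.2])⟩
  push_mem := fun f _ _ _ hf hy => ⟨rad_push f hy.1, mem_fixed.2 (by
    rw [← hf, mem_fixed.1 hy.2])⟩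

/-- The zero classes. -/
def botSys (W : WeilCohomology.{u, 0} ops) : ESys W where
  S _ _ := ⊥
  mul_mem := fun _ _ hy => by
    rw [Submodule.mem_bot] at hy ⊢
    rw [hy, mul_zero]
  map_mem := fun f _ _ _ _ hy => by
    rw [Submodule.mem_bot] at hy ⊢
    rw [hy, map_zero]
  push_mem := fun f _ _ _ _ hy => by
    rw [Submodule.mem_bot] at hy ⊢
    rw [hy, map_zero]

theorem sub_rad {Y : 𝒱.Obj} {E : W.H Y →ₗ[W.K] W.H Y} :
    Sub (radSys W) (botSys W) Y E ↔ Rad W Y ⊓ fixed E = ⊥ := by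
  rw [Submodule.eq_bot_iff]
  exact Iff.rfl

theorem sub_rad_id {Y : 𝒱.Obj} :
    Sub (radSys W) (botSys W) Y LinearMap.id ↔ HomEqNum W Y := by
  rw [sub_rad, fixed_id, inf_top_eq, hom_iff]

/-- The components of linear combinations of algebraic classes. -/
theorem alg_comp {Y : 𝒱.Obj} {y : W.H Y} (hy : y ∈ algSpan W Y) (j : ℕ) :
    prj (W.isInternal Y) (2 * j) y ∈ Submodule.span W.K (algClasses W Y j) := by
  induction hy using Submodule.span_induction with
  | mem c hc =>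
    obtain ⟨i, hi⟩ := Set.mem_iUnion.1 hc
    have h1 : c ∈ W.gr Y (2 * i) := by
      obtain ⟨z, hz, rfl⟩ := hi
      exact W.cl_mem hz
    by_cases hm : i = j
    · subst hm
      rw [prj_same _ h1]
      exact Submodule.subset_span hi
    · rw [prj_ne _ (fun h => hm (by omega)) h1]
      exact Submodule.zero_mem _
  | zero => rw [map_zero]; exact Submodule.zero_mem _
  | add x y _ _ hx hy => rw [map_add]; exact Submodule.add_mem _ hx hy
  | smul r x _ hx => rw [map_smul]; exact Submodule.smul_mem _ _ hx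

theorem span_fix (G : GaloisData W Γ) {Y : 𝒱.Obj} {j : ℕ} {c : W.H Y}
    (hc : c ∈ Submodule.span W.K (algClasses W Y j)) :
    ∃ Δ : Subgroup Γ, Δ.FiniteIndex ∧ ∀ g ∈ Δ, G.act Y g c = (G.χ g : W.K) ^ j • c := by
  induction hc using Submodule.span_induction with
  | mem c hc => exact (G.galois Y).cl_fix j c hc
  | zero => exact ⟨⊤, inferInstance, fun g _ => by rw [map_zero, smul_zero]⟩
  | add x y _ _ hx hy =>
    obtain ⟨Δ, h1, h2⟩ := hx
    obtain ⟨Δ', h3, h4⟩ := hy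
    refine ⟨Δ ⊓ Δ', inferInstance, fun g hg => ?_⟩
    rw [map_add, h2 g hg.1, h4 g hg.2, smul_add]
  | smul r x _ hx =>
    obtain ⟨Δ, h1, h2⟩ := hx
    exact ⟨Δ, h1, fun g hg => by rw [map_smul, h2 g hg, smul_comm]⟩

theorem tateComp_alg (G : GaloisData W Γ) {Y : 𝒱.Obj} {y : W.H Y} (hy : y ∈ algSpan W Y) :
    TateComp G.χ (G.var Y) y := by
  intro m
  by_cases hm : Even m
  · obtain ⟨j, hj⟩ := hm
    have e : m = 2 * j := by omega
    subst e
    exact Or.inr ⟨j, rfl, span_fix G (alg_comp hy j)⟩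
  · exact Or.inl (alg_odd hy hm)

theorem listOp_id (X : ι → 𝒱.Obj) (Z : 𝒱.Obj) (L : List ι) :
    listOp X (LinearMap.id : W.H Z →ₗ[W.K] W.H Z) L = LinearMap.id := by
  induction L with
  | nil => rfl
  | cons i L ih =>
    change prodOp (X i) (listOp X LinearMap.id L) = _
    rw [ih, prodOp_id]
    rfl

theorem hom_iso {A B : 𝒱.Obj} (e : A ≅ B) (h : HomEqNum W A) : HomEqNum W B := by
  rw [hom_iff, Submodule.eq_bot_iff] at h ⊢
  intro y hy
  have h1 : W.map e.inv (W.map e.hom y) = y := by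
    rw [← W.map_comp, e.inv_hom_id, W.map_id]
  rw [← h1, h _ (rad_map e.hom hy), map_zero]

theorem one_ne {X : 𝒱.Obj} {G : GaloisData W Γ}
    (h : IsBig (W.tr X) (transcendental W X) (G.on X).act) : (1 : W.H X) ≠ 0 := by
  intro h0
  obtain ⟨F, x, hx, y, hy, hx0, -⟩ := h.hyperbolic
  apply hx0
  rw [← one_mul x]
  change (1 : W.H X) * x = 0
  rw [h0, zero_mul]

section gal

variable (G : GaloisData W Γ)

theorem d_sub {X : ι → 𝒱.Obj} {Z : 𝒱.Obj} (hX : ∀ i, HomEqNum W (X i))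
    (h1 : ∀ i, (1 : W.H (X i)) ≠ 0) {L L' : List ι} (hsub : L'.Sublist L)
    (h : HomEqNum W (prodList X Z L)) : HomEqNum W (prodList X Z L') := by
  have h5 := sys_sublist (ℳ := radSys W) (𝒩 := botSys W)
    (E := (LinearMap.id : W.H Z →ₗ[W.K] W.H Z)) hX h1 hsub
  rw [listOp_id, listOp_id] at h5
  exact sub_rad_id.1 (h5 (sub_rad_id.2 h))

/-- **Finitely many products suffice**, Galois version. -/
theorem d_iff [IsAlgClosed W.K] [DecidableEq ι] {X : ι → 𝒱.Obj} (Z : 𝒱.Obj)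
    (hX : ∀ i, OddMiddle W (X i)) (hG : BigFamily G X) :
    ∃ B : Finset ι, ∑ i ∈ B, trDim W (X i) ≤ totDim W Z ∧ (∀ i ∈ B, ¬Apart G (X i) Z) ∧
      ∀ L : List ι, HomEqNum W (prodList X Z L) ↔
        ∀ L' : List ι, L'.Sublist L → SmallDim W X Z B L' → HomEqNum W (prodList X Z L') := by
  obtain ⟨B, h1, h2, h3⟩ := gal_sys G Z (bigFamily_ad G hX hG)
  refine ⟨B, h1, h2, fun L => ?_⟩
  have h4 := h3 (radSys W) (botSys W) LinearMap.id L fun Y E y hy => tateComp_alg G hy.1.1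
  simp only [listOp_id, sub_rad_id] at h4
  exact ⟨fun h L' hsub _ => d_sub (fun i => (hX i).homEqNum) (fun i => one_ne (hG.big i)) hsub h,
    fun h => h4.2 fun L' hsub hsmall => h L' hsub (small_list G hsmall)⟩

/-- The separated case. -/
theorem d_sep [IsAlgClosed W.K] {X : ι → 𝒱.Obj} (Z : 𝒱.Obj)
    (hX : ∀ i, OddMiddle W (X i)) (hG : BigFamily G X) (hsep : ∀ i, SlopeSep G (X i) Z)
    (L : List ι) : HomEqNum W (prodList X Z L) ↔ HomEqNum W Z := by
  classical
  obtain ⟨B, -, h2, h3⟩ := d_iff G Z hX hG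
  refine ⟨fun h => d_sub (fun i => (hX i).homEqNum) (fun i => one_ne (hG.big i))
    (List.nil_sublist _) h, fun h => (h3 L).2 fun L' _ hs => ?_⟩
  have h5 : L' = [] := by
    rw [List.eq_nil_iff_forall_not_mem]
    exact fun i hi => h2 i (hs.mem i hi) (hsep i)
  rw [h5]
  exact h

/-- The separated case, powers. -/
theorem d_pow [IsAlgClosed W.K] {X : ι → 𝒱.Obj} (Z : 𝒱.Obj)
    (hX : ∀ i, OddMiddle W (X i)) (hG : BigFamily G X) (hsep : ∀ i, SlopeSep G (X i) Z)
    (L : List ι) (n : ℕ) : HomEqNum W (powN (prodList X Z L) n) ↔ HomEqNum W (powN Z n) := by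
  obtain ⟨L', ⟨e⟩⟩ := iso_pow X Z L n
  have h3 := d_sep G (powN Z n) hX hG (fun i => slopeSep_pow G (hsep i) n) L'
  rw [← h3]
  exact ⟨fun h => hom_iso e h, fun h => hom_iso e.symm h⟩

theorem hom_point {Z : 𝒱.Obj} (hZ : Z.dim = 0) : HomEqNum W Z := by
  rw [hom_iff, Submodule.eq_bot_iff]
  intro y hy
  apply W.tr_ext
  intro c
  rw [zero_mul, map_zero]
  have h1 : c ∈ algSpan W Z := by
    refine gr_induction (W.isInternal Z) (p := fun c => c ∈ algSpan W Z) ?_ ?_ c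
    · intro j b hb
      rcases Nat.eq_zero_or_pos j with rfl | hj
      · rw [W.gr_zero] at hb
        refine Submodule.span_mono ?_ hb
        rw [Set.singleton_subset_iff]
        exact Set.mem_iUnion.2 ⟨0, Z.V.fundCycle, Z.V.fundCycle_mem, W.cl_fund Z⟩
      · rw [gr_zero_bot hZ hj] at hb
        rw [(Submodule.mem_bot _).1 hb]
        exact Submodule.zero_mem _
    · intro b b' hb hb'
      exact Submodule.add_mem _ hb hb'
  rw [← bil_apply]
  exact trans_alg hy.2 h1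

theorem d_products [IsAlgClosed W.K] {X : ι → 𝒱.Obj} {Z : 𝒱.Obj} (hZ : Z.dim = 0)
    (hX : ∀ i, OddMiddle W (X i)) (hG : BigFamily G X) (L : List ι) (n : ℕ) :
    HomEqNum W (powN (prodList X Z L) n) := by
  classical
  have key : ∀ (Z : 𝒱.Obj), Z.dim = 0 → ∀ L, HomEqNum W (prodList X Z L) := by
    intro Z hZ L
    obtain ⟨B, -, -, hiff⟩ := d_iff G Z hX hG
    rw [hiff]
    intro L' _ hsmall
    rw [smallDim_nil0 hZ hsmall]
    exact hom_point hZ
  obtain ⟨L', ⟨e⟩⟩ := iso_pow X Z L n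
  exact hom_iso e.symm (key _ (powN_dim0 hZ n) L')

end gal

end Pool.Agent.X227.MS
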