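import Pool.Agent.X227.MS.App

/-!
# Pairs of systems of classes on products: Galois actions and Hodge structures
-/

open CategoryTheory AlgebraicGeometry Finset Function
open Pool.Agent.Y132.EP (DG tow)

set_option linter.unusedSectionVars false

universe u v w

namespace Pool.Agent.X227.MS

open Pool.Agent.H914 Pool.Agent.H914.VarClass Pool.Agent.H914.VarClass.Obj
  Pool.Agent.H914.WeilCohomology Pool.Agent.H281R3.HT Pool.Agent.W552 Pool.Agent.TH125.Gal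
  Pool.Agent.Y132.AF Pool.Agent.Y132.AH Pool.Agent.X227.DN Pool.Agent.X227.MM

variable {k : Type u} [Field k] {𝒱 : VarClass k} {ops : CycleOps 𝒱}
  {W : WeilCohomology.{u, 0} ops} {Γ : Type} [Group Γ] {ι : Type}

section gal

variable (G : GaloisData W Γ)

theorem gal_sys [IsAlgClosed W.K] [DecidableEq ι] {X : ι → 𝒱.Obj} (Z : 𝒱.Obj)
    (hX : AdFamily G.χ fun i => G.var (X i)) :
    ∃ B : Finset ι, ∑ i ∈ B, trDim W (X i) ≤ totDim W Z ∧ (∀ i ∈ B, ¬SlopeSep G (X i) Z) ∧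
      ∀ (ℳ 𝒩 : ESys W) (E : W.H Z →ₗ[W.K] W.H Z) (L : List ι),
        (∀ (Y : 𝒱.Obj) (E : W.H Y →ₗ[W.K] W.H Y), ∀ y ∈ ℳ.S Y E, TateComp G.χ (G.var Y) y) →
        (Sub ℳ 𝒩 (prodList X Z L) (listOp X E L) ↔ ∀ L' : List ι, L'.Sublist L →
          SmallList G.χ (fun i => G.var (X i)) (G.var Z) B L' →
            Sub ℳ 𝒩 (prodList X Z L') (listOp X E L')) := by
  obtain ⟨B, h1, h2, h3⟩ := sys_iff (fun Y => G.act Y) (X := X) (Z := Z) hX (var_graded G Z)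
    (fun L Y hY => by
      have h4 := var_tower_eq G hY
      rw [h4])
  exact ⟨B, h1, fun i hi h => not_stableBound G h (h2 i hi), h3⟩

end gal

section hodge

variable (Ψ : HodgeData W)

theorem not_typeSep [IsAlgClosed W.K] {X : ι → 𝒱.Obj} {Z : 𝒱.Obj} (hX : SpFamily Ψ X) {i : ι}
    (hB : StableBound (hchar W.K) (actv Ψ (X i)) (actv Ψ Z)) : ¬TypeSep Ψ (X i) Z := by
  intro hsep
  obtain ⟨N, ⟨𝒰, h𝒰, hw⟩, p, q, ⟨x, hxT, hxH, hx0⟩, hlt⟩ := hsep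
  have hpq : p + q = (X i).dim := by
    refine type_sum Ψ (i := (p, q)) ((hX.var i).act.middle hxT) ?_
    rw [prj_same _ hxH]
    exact hx0
  have hst : StableGen (actv Ψ Z) 𝒰 := by
    refine ⟨fun U hU g x hx => ?_, h𝒰.gen⟩
    refine hact_ind (Ψ.isHodgeDec Z) (Ψ.isCoeffAct Z) (p := fun ρ _ => ∀ x ∈ U, ρ x ∈ U)
      (fun x hx => hx) (fun g x hx => h𝒰.stable U hU g x hx)
      (fun a b _ _ ha hb x hx => ha _ (hb _ hx)) g x hx
  obtain ⟨U, hU, z, hz, w, hw', hz0, hw0, β, hzβ, hwβ⟩ := hB 𝒰 hst (two W.K) (2 ^ p)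
    (2 ^ p) (2 ^ p * 2 ^ p / 2 ^ (X i).dim) x hxT x hxT hx0 hx0 (act_type Ψ hxH)
    (act_type Ψ hxH) (by
      rw [hchar_two]
      change (2 : W.K) ^ (X i).dim * _ = _
      field_simp)
  obtain ⟨a, ha, haa⟩ := exists_type Ψ hz0 hzβ
  obtain ⟨b, hb, hbb⟩ := exists_type Ψ hw0 hwβ
  obtain ⟨m, hm⟩ := (hw U hU).1
  -- the eigenvectors are of pure type
  have hpure : ∀ {z : W.H Z} {c : W.K} {a : ℕ × ℕ}, z ∈ U → z ≠ 0 →
      ract Ψ Z (two W.K) z = c • z →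
      prj (Ψ.isHodgeDec Z).isInternal a z ≠ 0 → TypeOn (Ψ.on Z) U a.1 a.2 := by
    intro z c a hz hz0 hzc hne
    refine ⟨z, hz, mem_of_prj (Ψ.isHodgeDec Z).isInternal fun j hj => ?_, hz0⟩
    by_contra hcon
    rw [act_two] at hzc
    have e1 := tor_eigen _ hzc hne
    have e2 := tor_eigen _ hzc hcon
    have e3 : a.1 = j.1 := by
      by_contra e4
      exact two_pow_ne e4 (e1.symm.trans e2)
    have e4 := type_sum Ψ (hm hz) hne
    have e5 := type_sum Ψ (hm hz) hcon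
    exact hj (Prod.ext e3.symm (by change j.2 = a.2; omega))
  have h1 := (hw U hU).2 a.1 a.2 b.1 b.2 (hpure hz hz0 hzβ ha) (hpure hw' hw0 hwβ hb)
  have h2 : (2 : W.K) ^ (p + p + b.1) = 2 ^ (a.1 + (X i).dim) := by
    rw [hbb] at haa
    have h3 : (2 : W.K) ^ (X i).dim ≠ 0 := pow_ne_zero _ two_ne_zero
    rw [pow_add, pow_add, pow_add, ← haa]
    field_simp
  have h3 : p + p + b.1 = a.1 + (X i).dim := by
    by_contra h4
    exact two_pow_ne h4 h2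
  omega

/-- All components of `y` are linear combinations of Hodge classes. -/
def HodgeComp (Y : 𝒱.Obj) (y : W.H Y) : Prop :=
  ∀ m, prj (W.isInternal Y) m y = 0 ∨ ∃ j, m = 2 * j ∧
    prj (W.isInternal Y) m y ∈ Submodule.span W.K {c | IsHodge Ψ Y j c}

theorem tateComp_of {Y : 𝒱.Obj} {y : W.H Y} (h : HodgeComp Ψ Y y) :
    TateComp (hchar W.K) (actv Ψ Y) y := by
  intro m
  rcases h m with h1 | ⟨j, rfl, h1⟩
  · exact Or.inl h1
  · refine Or.inr ⟨j, rfl, ⊤, inferInstance, fun g _ => ?_⟩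
    generalize prj (W.isInternal Y) (2 * j) y = x at h1
    change ract Ψ Y g x = _
    induction h1 using Submodule.span_induction with
    | mem x hx => exact hodge_act Ψ hx g
    | zero => rw [map_zero, smul_zero]
    | add x y _ _ hx hy => rw [map_add, hx, hy, smul_add]
    | smul r x _ hx => rw [map_smul, hx, smul_comm]

theorem hodge_sys [IsAlgClosed W.K] [DecidableEq ι] {X : ι → 𝒱.Obj} (Z : 𝒱.Obj)
    (hX : SpFamily Ψ X) :
    ∃ B : Finset ι, ∑ i ∈ B, trDim W (X i) ≤ totDim W Z ∧ (∀ i ∈ B, ¬TypeSep Ψ (X i) Z) ∧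
      ∀ (ℳ 𝒩 : ESys W) (E : W.H Z →ₗ[W.K] W.H Z) (L : List ι),
        (∀ (Y : 𝒱.Obj) (E : W.H Y →ₗ[W.K] W.H Y), ∀ y ∈ ℳ.S Y E, HodgeComp Ψ Y y) →
        (Sub ℳ 𝒩 (prodList X Z L) (listOp X E L) ↔ ∀ L' : List ι, L'.Sublist L →
          SmallHodge Ψ X Z B L' → Sub ℳ 𝒩 (prodList X Z L') (listOp X E L')) := by
  obtain ⟨B, h1, h2, h3⟩ := sys_iff (fun Y => ract Ψ Y) (X := X) (Z := Z) (adFamily Ψ hX)
    (gradedVar Ψ Z) (fun L Y hY => by
      have h4 := isTower_eq Ψ hY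
      rw [h4])
  refine ⟨B, h1, fun i hi => not_typeSep Ψ hX (h2 i hi), fun ℳ 𝒩 E L hℳ => ?_⟩
  have h4 := h3 ℳ 𝒩 E L fun Y E y hy => tateComp_of Ψ (hℳ Y E y hy)
  refine ⟨fun h L' hsub hsmall => ?_, fun h => h4.2 fun L' hsub hsmall =>
    h L' hsub (smallHodge Ψ hX hsmall)⟩
  have hone : ∀ i, (1 : W.H (X i)) ≠ 0 := by
    intro i h0
    obtain ⟨F, x, hx, y, hy, hx0, -⟩ := ((adFamily Ψ hX).var i).act.hyperbolic
    apply hx0
    rw [← one_mul x]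
    change (1 : W.H (X i)) * x = 0
    rw [h0, zero_mul]
  exact sys_sublist (fun i => (hX.var i).homEqNum) hone hsub h

end hodge

/-- The empty list is the only small list. -/
theorem sub_nil {ℳ 𝒩 : ESys W} {X : ι → 𝒱.Obj} {Z : 𝒱.Obj} {E : W.H Z →ₗ[W.K] W.H Z}
    {B : Finset ι} (hB : ∀ i, i ∉ B) {L' : List ι} (h : ∀ i ∈ L', i ∈ B)
    (h0 : Sub ℳ 𝒩 Z E) : Sub ℳ 𝒩 (prodList X Z L') (listOp X E L') := by
  have h1 : L' = [] := by
    rw [List.eq_nil_iff_forall_not_mem]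
    exact fun i hi => hB i (h i hi)
  rw [h1]
  exact h0

end Pool.Agent.X227.MS
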