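import Pool.Agent.X227.MS.Thm

/-!
# Pairs of systems of classes on products: the main theorem
-/

open CategoryTheory AlgebraicGeometry Finset Function
open Pool.Agent.Y132.EP (DG tow idm map_idm exm map_exm map_exm')

set_option linter.unusedSectionVars false

universe u v w

namespace Pool.Agent.X227.MS

open Pool.Agent.H914 Pool.Agent.H914.VarClass Pool.Agent.H914.VarClass.Obj
  Pool.Agent.H914.WeilCohomology Pool.Agent.H281R3.HT Pool.Agent.W552 Pool.Agent.TH125.Gal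
  Pool.Agent.Y132.AF Pool.Agent.X227.DN

variable {k : Type u} [Field k] {𝒱 : VarClass k} {ops : CycleOps 𝒱}
  {W : WeilCohomology.{u, 0} ops} {Γ : Type} [Group Γ] {ι : Type} {χ : Γ →* W.Kˣ}
  {ℳ 𝒩 : ESys W}

section main

variable {X : ι → DG W Γ} {Z : DG W Γ} {E : W.H Z.X →ₗ[W.K] W.H Z.X}

/-- From Tate functions to multilinear maps. -/
theorem exists_occE [IsAlgClosed W.K] (h : Hy χ X) {κ : ℕ} {f : ∀ i, SFrame κ (X i).X W}
    {n : ℕ} {c : Fin n → ι} {l : List (Fin n)} (hl : l.Nodup)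
    (hS : ∀ p ∈ l, ∀ q ∈ l, p ≠ q → Nd ℳ 𝒩 χ X c f Z E ((l.erase p).erase q))
    {F : (Fin n → Lt κ) → W.H Z.X} (hF : Ts χ X c f Z l F)
    (hM : asm X c f Z l F ∈ ℳ.S (tow X Z c l).X (towOp X c E l))
    (hna : asm X c f Z l F ∉ 𝒩.S (tow X Z c l).X (towOp X c E l)) :
    ∃ m j, Occ h Z (fun s => c (l.get s)) m j := by
  obtain ⟨m, j, F', hF', hne, htr⟩ := exists_trE h.gal h.mid h.hom hl hS hF hM hna
  obtain ⟨F₂, h1, h2, h3⟩ := hF'.flat hl hne fun p hp q hq hpq hc J => htr p hp q hq hpq hc J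
  exact ⟨m, j, h1.deg, hmul X f Z _ F₂, ⟨hmul_tate h.gal h1, fun v => by
    rw [hmul_apply]
    exact Submodule.sum_mem _ fun J _ => Submodule.smul_mem _ _ (h1.gr J),
    hmul_ne h1 h2, hmul_tr h1 h3⟩⟩

theorem tow_compE {Λ : Type} (X : ι → DG W Γ) {Z : DG W Γ} (E : W.H Z.X →ₗ[W.K] W.H Z.X)
    (S : Finset ι) (c : Λ → S) (P : ∀ Y : DG W Γ, (W.H Y.X →ₗ[W.K] W.H Y.X) → Prop)
    (l : List Λ) : P (tow (fun i : S => X i) Z c l) (towOp (fun i : S => X i) c E l) ↔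
      P (tow X Z (fun s => (c s : ι)) l) (towOp X (fun s => (c s : ι)) E l) := by
  induction l generalizing P with
  | nil => exact Iff.rfl
  | cons s l ih =>
    exact ih fun Y E => P ((X (c s)).prod Y) (prodOp (X (c s)).X E)

/-- **Main theorem**, for the products over lists. -/
theorem main_sys [IsAlgClosed W.K] [DecidableEq ι] (h : Hy χ X)
    {B : Finset ι} (hB : ∀ (n : ℕ) (c : Fin n → ι) (m j : ℕ), Occ h Z c m j → ∀ s, c s ∈ B)
    {n : ℕ} (c : Fin n → ι) {l : List (Fin n)} (hl : l.Nodup)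
    (hfix : ∀ y ∈ ℳ.S (tow X Z c l).X (towOp X c E l), TateSum χ (tow X Z c l) y)
    (hT : ∀ l', l'.Sublist l → SmallList χ (fun i => (X i).toGVar) Z.toGVar B (l'.map c) →
      ∀ y ∈ ℳ.S (tow X Z c l').X (towOp X c E l'), y ∈ 𝒩.S (tow X Z c l').X (towOp X c E l')) :
    ∀ y ∈ ℳ.S (tow X Z c l).X (towOp X c E l), y ∈ 𝒩.S (tow X Z c l).X (towOp X c E l) := by
  set S : Finset ι := univ.image c with hSdef
  have hS : ∀ s, c s ∈ S := fun s => Finset.mem_image_of_mem _ (Finset.mem_univ s)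
  set c' : Fin n → S := fun s => ⟨c s, hS s⟩ with hc'
  have hX : Hy χ (fun i : S => X i) :=
    h.comp (fun i : S => (i : ι)) Subtype.val_injective
  obtain ⟨κ, g, b, -, hb⟩ := exists_bases hX
  have f : ∀ i : S, SFrame κ (X i).X W := fun i =>
    ⟨(exists_SB (h.hom i)).some, g i, b i, hb i, h.alt i⟩
  have e1 := tow_compE X E S c' (fun Y E => ∀ y ∈ ℳ.S Y.X E, y ∈ 𝒩.S Y.X E) l
  refine e1.1 ?_
  have e2 := (tow_compE X E S c' (fun Y E => ∀ y ∈ ℳ.S Y.X E, TateSum χ Y y) l).2 hfix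
  refine sys_of_sub (f := f) hX.gal hX.mid hl e2 ?_
  have hocc : ∀ l' : List (Fin n), l'.Sublist l →
      (∃ m j, Occ hX Z (fun s => c' (l'.get s)) m j) →
        Nd ℳ 𝒩 χ (fun i : S => X i) c' f Z E l' := by
    rintro l' hsub ⟨m, j, hO⟩
    have h1 := Occ.small h hB (Occ.unrestrict h S hO)
    have h2 : l'.map c = List.ofFn fun s => ((c' (l'.get s) : S) : ι) := map_get c l'
    rw [← h2] at h1
    intro F _ hM
    exact (tow_compE X E S c' (fun Y E => ∀ y ∈ ℳ.S Y.X E, y ∈ 𝒩.S Y.X E) l').2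
      (hT l' hsub h1) _ hM
  have key : ∀ (N : ℕ) (l' : List (Fin n)), l'.length ≤ N → l'.Sublist l →
      Nd ℳ 𝒩 χ (fun i : S => X i) c' f Z E l' := by
    intro N
    induction N with
    | zero =>
      intro l' hl' hsub
      by_cases ho : ∃ m j, Occ hX Z (fun s => c' (l'.get s)) m j
      · exact hocc l' hsub ho
      · intro F hF hR
        by_contra hna
        have hnil : l' = [] := List.length_eq_zero_iff.1 (Nat.le_zero.1 hl')
        exact ho (exists_occE hX (hl.sublist hsub) (fun p hp => by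
          rw [hnil] at hp
          exact absurd hp List.not_mem_nil) hF hR hna)
    | succ N ih =>
      intro l' hl' hsub
      by_cases ho : ∃ m j, Occ hX Z (fun s => c' (l'.get s)) m j
      · exact hocc l' hsub ho
      · intro F hF hR
        by_contra hna
        exact ho (exists_occE hX (hl.sublist hsub) (fun p hp q hq hpq => ih _ (by
          have hq' : q ∈ l'.erase p := (List.mem_erase_of_ne hpq.symm).2 hq
          rw [List.length_erase_of_mem hq', List.length_erase_of_mem hp]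
          omega) ((List.erase_sublist.trans List.erase_sublist).trans hsub)) hF hR hna)
  exact fun l' hl' => key l'.length l' le_rfl hl'

end main

section conv

/-- Morphisms in both directions which are inverse on the cohomology and intertwine the
operators. -/
def EqE (A B : 𝒱.Obj) (E : W.H A →ₗ[W.K] W.H A) (E' : W.H B →ₗ[W.K] W.H B) : Prop :=
  ∃ (r : A ⟶ B) (s : B ⟶ A), IntM r E E' ∧ IntM s E' E ∧ ∀ y, W.map s (W.map r y) = y

theorem EqE.sys {A B : 𝒱.Obj} {E : W.H A →ₗ[W.K] W.H A} {E' : W.H B →ₗ[W.K] W.H B}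
    (h : EqE A B E E') (hA : ∀ y ∈ ℳ.S A E, y ∈ 𝒩.S A E) : ∀ y ∈ ℳ.S B E', y ∈ 𝒩.S B E' := by
  obtain ⟨r, s, h1, h2, h3⟩ := h
  intro y hy
  have h4 := 𝒩.map_mem s h2 (hA _ (ℳ.map_mem r h1 hy))
  rwa [h3] at h4

theorem EqE.refl (A : 𝒱.Obj) (E : W.H A →ₗ[W.K] W.H A) : EqE A A E E :=
  ⟨𝟙 _, 𝟙 _, IntM.id _, IntM.id _, fun y => by rw [W.map_id, W.map_id]⟩

theorem EqE.trans {A B C : 𝒱.Obj} {E : W.H A →ₗ[W.K] W.H A} {E' : W.H B →ₗ[W.K] W.H B}
    {E'' : W.H C →ₗ[W.K] W.H C} (h : EqE A B E E') (h' : EqE B C E' E'') : EqE A C E E'' := by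
  obtain ⟨r, s, h1, h2, h3⟩ := h
  obtain ⟨r', s', h1', h2', h3'⟩ := h'
  refine ⟨r ≫ r', s' ≫ s, h1.comp h1', h2'.comp h2, fun y => ?_⟩
  rw [W.map_comp, W.map_comp, h3, h3']

theorem EqE.cons (C : 𝒱.Obj) {A B : 𝒱.Obj} {E : W.H A →ₗ[W.K] W.H A}
    {E' : W.H B →ₗ[W.K] W.H B} (h : EqE A B E E') :
    EqE (C.prod A) (C.prod B) (prodOp C E) (prodOp C E') := by
  obtain ⟨r, s, h1, h2, h3⟩ := h
  refine ⟨idm C r, idm C s, IntM.idm _ h1, IntM.idm _ h2, fun y => ?_⟩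
  refine W.kunneth_induction (p := fun y => W.map (idm C s) (W.map (idm C r) y) = y)
    ?_ ?_ y
  · intro a b ha hb
    rw [map_add, map_add, ha, hb]
  · intro i j a _ b _
    rw [map_idm, map_idm, h3]

theorem EqE.exch (A A' B : 𝒱.Obj) (E : W.H B →ₗ[W.K] W.H B) :
    EqE (A.prod (A'.prod B)) (A'.prod (A.prod B)) (prodOp A (prodOp A' E))
      (prodOp A' (prodOp A E)) := by
  refine ⟨exm A A' B, exm A' A B, IntM.exm _ _ _, IntM.exm _ _ _, fun y => ?_⟩
  refine W.kunneth_induction (p := fun y => W.map (exm A' A B)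
    (W.map (exm A A' B) y) = y) ?_ ?_ y
  · intro a b ha hb
    rw [map_add, map_add, ha, hb]
  · intro i j a _ w _
    refine W.kunneth_induction (p := fun w => W.map (exm A' A B)
      (W.map (exm A A' B) (W.map (fst A' (A.prod B)) a *
        W.map (snd A' (A.prod B)) w)) = W.map (fst A' (A.prod B)) a *
        W.map (snd A' (A.prod B)) w) ?_ ?_ w
    · intro w w' hw hw'
      rw [map_add, mul_add, map_add, map_add, hw, hw']
    · intro i' j' a' _ b _
      rw [map_exm, map_exm']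

/-- The product over a list, with the first factor in front. -/
noncomputable def plist (X : ι → 𝒱.Obj) (Z : 𝒱.Obj) : List ι → 𝒱.Obj :=
  Pool.Agent.Y132.AH.prodList X Z

/-- The operator `1 × E` on the cohomology of a product. -/
noncomputable def listOp (X : ι → 𝒱.Obj) {Z : 𝒱.Obj} (E : W.H Z →ₗ[W.K] W.H Z) :
    ∀ L : List ι, W.H (Pool.Agent.Y132.AH.prodList X Z L) →ₗ[W.K]
      W.H (Pool.Agent.Y132.AH.prodList X Z L)
  | [] => E
  | i :: L => prodOp (X i) (listOp X E L)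

theorem EqE.perm (X : ι → 𝒱.Obj) {Z : 𝒱.Obj} (E : W.H Z →ₗ[W.K] W.H Z) {L L' : List ι}
    (h : L.Perm L') : EqE (Pool.Agent.Y132.AH.prodList X Z L)
      (Pool.Agent.Y132.AH.prodList X Z L') (listOp X E L) (listOp X E L') := by
  induction h with
  | nil => exact EqE.refl _ _
  | cons s _ ih => exact ih.cons (X s)
  | swap s t l => exact EqE.exch _ _ _ _
  | trans _ _ ih1 ih2 => exact ih1.trans ih2

/-- The inclusion for a product implies it for the second factor. -/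
theorem sys_drop {A B : 𝒱.Obj} {E : W.H B →ₗ[W.K] W.H B} (hDX : HomEqNum W A)
    (h1 : (1 : W.H A) ≠ 0)
    (hT : ∀ y ∈ ℳ.S (A.prod B) (prodOp A E), y ∈ 𝒩.S (A.prod B) (prodOp A E)) :
    ∀ y ∈ ℳ.S B E, y ∈ 𝒩.S B E := by
  intro y hy
  have h2 := hT _ (ℳ.map_mem (snd A B) (IntM.snd A E) hy)
  obtain ⟨a, ha, ha0⟩ := exists_pt hDX h1
  have h3 := 𝒩.push_mem (snd A B) (IntP.snd A E) (𝒩.mul_mem
    (algSpan_map (fst A B) (alg_mem ha)) (Comm.fst A E a) h2)
  rw [W.push_snd] at h3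
  have h4 := Submodule.smul_mem _ (W.tr A a)⁻¹ h3
  rwa [smul_smul, inv_mul_cancel₀ ha0, one_smul] at h4

theorem sys_append {X : ι → 𝒱.Obj} {Z : 𝒱.Obj} {E : W.H Z →ₗ[W.K] W.H Z}
    (hDX : ∀ i, HomEqNum W (X i)) (h1 : ∀ i, (1 : W.H (X i)) ≠ 0) {l l' : List ι}
    (hT : ∀ y ∈ ℳ.S (Pool.Agent.Y132.AH.prodList X Z (l ++ l')) (listOp X E (l ++ l')),
      y ∈ 𝒩.S (Pool.Agent.Y132.AH.prodList X Z (l ++ l')) (listOp X E (l ++ l'))) :
    ∀ y ∈ ℳ.S (Pool.Agent.Y132.AH.prodList X Z l') (listOp X E l'),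
      y ∈ 𝒩.S (Pool.Agent.Y132.AH.prodList X Z l') (listOp X E l') := by
  induction l with
  | nil => exact hT
  | cons s l ih => exact ih (sys_drop (hDX s) (h1 s) hT)

/-- **The inclusion for a product implies it for all subproducts.** -/
theorem sys_sublist {X : ι → 𝒱.Obj} {Z : 𝒱.Obj} {E : W.H Z →ₗ[W.K] W.H Z}
    (hDX : ∀ i, HomEqNum W (X i)) (h1 : ∀ i, (1 : W.H (X i)) ≠ 0) {l l' : List ι}
    (h : l'.Sublist l)
    (hT : ∀ y ∈ ℳ.S (Pool.Agent.Y132.AH.prodList X Z l) (listOp X E l),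
      y ∈ 𝒩.S (Pool.Agent.Y132.AH.prodList X Z l) (listOp X E l)) :
    ∀ y ∈ ℳ.S (Pool.Agent.Y132.AH.prodList X Z l') (listOp X E l'),
      y ∈ 𝒩.S (Pool.Agent.Y132.AH.prodList X Z l') (listOp X E l') := by
  obtain ⟨l'', hl⟩ := h.exists_perm_append
  exact sys_append hDX h1 ((EqE.perm X E (hl.trans List.perm_append_comm)).sys hT)

end conv

end Pool.Agent.X227.MS
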