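import Pool.Agent.X227.MS.Sys

/-!
# Direct summands of the noncommutative motives of varieties: definitions
-/

open CategoryTheory AlgebraicGeometry

universe u

namespace Pool.Agent.X227.MS

open Pool.Agent.H914 Pool.Agent.H914.VarClass Pool.Agent.H914.VarClass.Obj
  Pool.Agent.H914.WeilCohomology

variable {k : Type u} [Field k] {𝒱 : VarClass k} {ops : CycleOps 𝒱}

/-- The classes of the cycles with rational coefficients on `Y`, of mixed codimensions: the image of
`K_0(Y)_ℚ`. -/
def cyc (W : WeilCohomology.{u, 0} ops) (Y : 𝒱.Obj) : AddSubgroup (W.H Y) :=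
  AddSubgroup.closure (⋃ j, algClasses W Y j)

variable {W : WeilCohomology.{u, 0} ops}

/-- The operator `y ↦ pr_2_* (e * pr_1^* y)` on the cohomology of `Z`, for a class `e` on `Z × Z`. -/
noncomputable def ncOp {Z : 𝒱.Obj} (e : W.H (Z.prod Z)) : W.H Z →ₗ[W.K] W.H Z :=
  corrOp (W.map (fst Z Z)) (W.push (snd Z Z)) e

/-- `e` is the class of a cycle of mixed codimension on `Z × Z` with rational coefficients, whose
operator is idempotent. -/
structure IsProjector (Z : 𝒱.Obj) (e : W.H (Z.prod Z)) : Prop where
  mem : e ∈ cyc W (Z.prod Z)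
  idem : ∀ y, ncOp e (ncOp e y) = ncOp e y

/-- Homological and numerical equivalence coincide on the direct summand of the noncommutative motive
of `Y` which is the image of the operator `E`: if the class `y` of a cycle of mixed codimension is
fixed by `E` and numerically trivial then it is zero. -/
def NCHomEqNum (Y : 𝒱.Obj) (E : W.H Y →ₗ[W.K] W.H Y) : Prop :=
  ∀ y ∈ cyc W Y, E y = y → (∀ w ∈ cyc W Y, W.tr Y (y * w) = 0) → y = 0

end Pool.Agent.X227.MS
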