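import Pool.Agent.X227.MS.DConj
import Pool.Agent.X227.MS.NCDefs

/-!
# Direct summands of the noncommutative motives of varieties
-/

open CategoryTheory AlgebraicGeometry Finset Function
open Pool.Agent.Y132.EP (DG tow idm map_idm exm map_exm)

set_option linter.unusedSectionVars false

universe u v w

namespace Pool.Agent.X227.MS

open Pool.Agent.H914 Pool.Agent.H914.VarClass Pool.Agent.H914.VarClass.Obj
  Pool.Agent.H914.WeilCohomology Pool.Agent.H281R3.HT Pool.Agent.W552 Pool.Agent.TH125.Gal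
  Pool.Agent.Y132.AF Pool.Agent.Y132.AH Pool.Agent.X227.DN Pool.Agent.X227.MM

variable {k : Type u} [Field k] {𝒱 : VarClass k} {ops : CycleOps 𝒱}
  {W : WeilCohomology.{u, 0} ops} {Γ : Type} [Group Γ] {ι : Type}

theorem cyc_of {Y : 𝒱.Obj} {j : ℕ} {y : W.H Y} (h : y ∈ algClasses W Y j) : y ∈ cyc W Y :=
  AddSubgroup.subset_closure (Set.mem_iUnion.2 ⟨j, h⟩)

theorem cyc_ind {Y : 𝒱.Obj} {p : W.H Y → Prop} (h : ∀ j, ∀ y ∈ algClasses W Y j, p y)
    (h0 : p 0) (ha : ∀ x y, p x → p y → p (x + y)) (hn : ∀ x, p x → p (-x)) {y : W.H Y}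
    (hy : y ∈ cyc W Y) : p y := by
  induction hy using AddSubgroup.closure_induction with
  | mem x hx =>
    obtain ⟨j, hj⟩ := Set.mem_iUnion.1 hx
    exact h j x hj
  | zero => exact h0
  | add x y _ _ hx hy => exact ha x y hx hy
  | neg x _ hx => exact hn x hx

theorem cyc_alg {Y : 𝒱.Obj} {y : W.H Y} (hy : y ∈ cyc W Y) : y ∈ algSpan W Y :=
  cyc_ind (p := fun y => y ∈ algSpan W Y)
    (fun j y hj => Submodule.subset_span (Set.mem_iUnion.2 ⟨j, hj⟩)) (Submodule.zero_mem _)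
    (fun _ _ => Submodule.add_mem _) (fun _ => Submodule.neg_mem _) hy

theorem cyc_smul {Y : 𝒱.Obj} (q : ℚ) {y : W.H Y} (hy : y ∈ cyc W Y) :
    (q : W.K) • y ∈ cyc W Y := by
  refine cyc_ind (p := fun y => (q : W.K) • y ∈ cyc W Y) (fun j y hj => cyc_of (alg_smul q hj))
    ?_ ?_ ?_ hy
  · rw [smul_zero]
    exact zero_mem _
  · intro x y hx hy
    rw [smul_add]
    exact add_mem hx hy
  · intro x hx
    rw [smul_neg]
    exact neg_mem hx

theorem cyc_mul {Y : 𝒱.Obj} {x y : W.H Y} (hx : x ∈ cyc W Y) (hy : y ∈ cyc W Y) :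
    x * y ∈ cyc W Y := by
  refine cyc_ind (p := fun x => x * y ∈ cyc W Y) (fun i x hi => ?_) ?_ ?_ ?_ hx
  · refine cyc_ind (p := fun y => x * y ∈ cyc W Y) (fun j y hj => ?_) ?_ ?_ ?_ hy
    · obtain ⟨z, hz, rfl⟩ := hi
      obtain ⟨w, hw, rfl⟩ := hj
      exact cyc_of ⟨ops.mul z w, ops.mul_mem hz hw, W.cl_mul z w⟩
    · rw [mul_zero]
      exact zero_mem _
    · intro a b ha hb
      rw [mul_add]
      exact add_mem ha hb
    · intro a ha
      rw [mul_neg]
      exact neg_mem ha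
  · rw [zero_mul]
    exact zero_mem _
  · intro a b ha hb
    rw [add_mul]
    exact add_mem ha hb
  · intro a ha
    rw [neg_mul]
    exact neg_mem ha

theorem cyc_map {Y Y' : 𝒱.Obj} (f : Y ⟶ Y') {y : W.H Y'} (hy : y ∈ cyc W Y') :
    W.map f y ∈ cyc W Y := by
  refine cyc_ind (p := fun y => W.map f y ∈ cyc W Y) (fun j y hj => ?_) ?_ ?_ ?_ hy
  · obtain ⟨z, hz, rfl⟩ := hj
    exact cyc_of ⟨ops.pull f z, ops.pull_mem f hz, W.cl_pull f z⟩
  · rw [map_zero]
    exact zero_mem _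
  · intro a b ha hb
    rw [map_add]
    exact add_mem ha hb
  · intro a ha
    rw [map_neg]
    exact neg_mem ha

theorem cyc_push {Y Y' : 𝒱.Obj} (f : Y ⟶ Y') {y : W.H Y} (hy : y ∈ cyc W Y) :
    W.push f y ∈ cyc W Y' := by
  refine cyc_ind (p := fun y => W.push f y ∈ cyc W Y') (fun j y hj => ?_) ?_ ?_ ?_ hy
  · by_cases h : Y.dim ≤ j + Y'.dim
    · obtain ⟨z, hz, rfl⟩ := hj
      exact cyc_of ⟨ops.push f z, ops.push_mem f hz (q := j + Y'.dim - Y.dim) (by omega),
        W.cl_push f z⟩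
    · have h1 : W.push f y = 0 := by
        refine ext_prj (W.isInternal _) fun m => ?_
        rw [map_zero]
        exact gr_push f (alg_gr hj) (by omega)
      rw [h1]
      exact zero_mem _
  · rw [map_zero]
    exact zero_mem _
  · intro a b ha hb
    rw [map_add]
    exact add_mem ha hb
  · intro a ha
    rw [map_neg]
    exact neg_mem ha

theorem cyc_rat {Y : 𝒱.Obj} {x y : W.H Y} (hx : x ∈ cyc W Y) (hy : y ∈ cyc W Y) :
    ∃ s : ℚ, W.tr Y (x * y) = s := by
  refine cyc_ind (p := fun x => ∃ s : ℚ, W.tr Y (x * y) = s) (fun i x hi => ?_) ?_ ?_ ?_ hx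
  · refine cyc_ind (p := fun y => ∃ s : ℚ, W.tr Y (x * y) = s) (fun j y hj => ?_) ?_ ?_ ?_ hy
    · exact alg_rat hi hj
    · exact ⟨0, by rw [mul_zero, map_zero, Rat.cast_zero]⟩
    · rintro a b ⟨s, hs⟩ ⟨t, ht⟩
      exact ⟨s + t, by rw [mul_add, map_add, hs, ht, Rat.cast_add]⟩
    · rintro a ⟨s, hs⟩
      exact ⟨-s, by rw [mul_neg, map_neg, hs, Rat.cast_neg]⟩
  · exact ⟨0, by rw [zero_mul, map_zero, Rat.cast_zero]⟩
  · rintro a b ⟨s, hs⟩ ⟨t, ht⟩
    exact ⟨s + t, by rw [add_mul, map_add, hs, ht, Rat.cast_add]⟩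
  · rintro a ⟨s, hs⟩
    exact ⟨-s, by rw [neg_mul, map_neg, hs, Rat.cast_neg]⟩

/-- The operator of a correspondence given by a roof. -/
def RoofOp (Y : 𝒱.Obj) (E : W.H Y →ₗ[W.K] W.H Y) : Prop :=
  ∃ (V : 𝒱.Obj) (p q : V ⟶ Y) (e : W.H V), e ∈ cyc W V ∧
    ∀ y, E y = W.push q (e * W.map p y)

theorem RoofOp.cyc {Y : 𝒱.Obj} {E : W.H Y →ₗ[W.K] W.H Y} (h : RoofOp Y E) {y : W.H Y}
    (hy : y ∈ cyc W Y) : E y ∈ cyc W Y := by
  obtain ⟨V, p, q, e, he, hE⟩ := h
  rw [hE]
  exact cyc_push _ (cyc_mul he (cyc_map _ hy))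

theorem RoofOp.prod {Y : 𝒱.Obj} {E : W.H Y →ₗ[W.K] W.H Y} (h : RoofOp Y E) (A : 𝒱.Obj) :
    RoofOp (A.prod Y) (prodOp A E) := by
  obtain ⟨V, p, q, e, he, hE⟩ := h
  refine ⟨A.prod V, idm A p, idm A q, W.map (snd A V) e, cyc_map _ he, fun y => ?_⟩
  refine kun_ext (L := fun y => prodOp A E y)
    (L' := fun y => W.push (Pool.Agent.Y132.EP.idm A q) (W.map (Obj.snd A V) e *
      W.map (Pool.Agent.Y132.EP.idm A p) y))
    (fun a b => map_add _ _ _) (fun a b => by beta_reduce; rw [map_add, mul_add, map_add])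
    (fun a b => ?_) y
  beta_reduce
  rw [prodOp_ext, map_idm, ← mul_assoc, alg_comm (algSpan_map (Obj.snd A V) (cyc_alg he)),
    mul_assoc, ← map_mul, Pool.Agent.X227.DN.push_idm, hE]

theorem prodOp_comp (A : 𝒱.Obj) {B : 𝒱.Obj} (E : W.H B →ₗ[W.K] W.H B)
    (h : ∀ y, E (E y) = E y) (y : W.H (A.prod B)) :
    prodOp A E (prodOp A E y) = prodOp A E y := by
  refine kun_ext (L := fun y => prodOp A E (prodOp A E y))
    (L' := fun y => prodOp A E y) (fun a b => by beta_reduce; rw [map_add, map_add])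
    (fun a b => by beta_reduce; rw [map_add]) (fun a b => ?_) y
  beta_reduce
  rw [prodOp_ext, prodOp_ext, h]

/-- **Descent of the coefficients.** -/
theorem span_descent {Y : 𝒱.Obj} {S : Set (W.H Y)} (hS : ∀ v ∈ S, v ∈ cyc W Y)
    (hadd : ∀ v ∈ S, ∀ w ∈ S, v + w ∈ S) (hsmul : ∀ (q : ℚ), ∀ v ∈ S, (q : W.K) • v ∈ S)
    (h0 : (0 : W.H Y) ∈ S) (hnum : ∀ v ∈ S, (∀ w ∈ cyc W Y, W.tr Y (v * w) = 0) → v = 0)
    {y : W.H Y} (hy : y ∈ Submodule.span W.K S) (hy0 : ∀ w ∈ cyc W Y, W.tr Y (y * w) = 0) :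
    y = 0 := by
  classical
  obtain ⟨n, k, v, rfl⟩ := Submodule.mem_span_set'.1 hy
  let b := Module.Basis.ofVectorSpace ℚ W.K
  have hsum : ∀ (s : Finset (Fin n)) (r : Fin n → ℚ),
      ∑ i ∈ s, (r i : W.K) • (v i : W.H Y) ∈ S := by
    intro s r
    induction s using Finset.induction_on with
    | empty => rw [Finset.sum_empty]; exact h0
    | insert a s ha ih =>
      rw [Finset.sum_insert ha]
      exact hadd _ (hsmul _ _ (v a).2) _ ih
  -- the rational components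
  have hcomp : ∀ β, ∑ i, ((b.repr (k i) β : ℚ) : W.K) • (v i : W.H Y) = 0 := by
    intro β
    refine hnum _ (hsum _ _) fun w hw => ?_
    choose s hs using fun i => cyc_rat (hS _ (v i).2) hw
    have h1 := hy0 w hw
    rw [Finset.sum_mul, map_sum] at h1 ⊢
    have h2 : ∑ i, s i • k i = 0 := by
      rw [← h1]
      refine Finset.sum_congr rfl fun i _ => ?_
      rw [smul_mul_assoc, map_smul, hs i, smul_eq_mul, mul_comm, Rat.smul_def]
    have h3 := congrArg (fun x => b.repr x β) h2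
    beta_reduce at h3
    rw [map_sum, Finsupp.finset_sum_apply, map_zero, Finsupp.zero_apply] at h3
    have h4 : (((∑ i, (b.repr (s i • k i)) β : ℚ)) : W.K) = 0 := by
      rw [h3, Rat.cast_zero]
    rw [Rat.cast_sum] at h4
    rw [← h4]
    refine Finset.sum_congr rfl fun i _ => ?_
    rw [smul_mul_assoc, map_smul, hs i, smul_eq_mul, map_smul, Finsupp.smul_apply, smul_eq_mul,
      Rat.cast_mul, mul_comm]
  -- the sum
  have h5 : ∀ i, k i = ∑ β ∈ (Finset.univ.biUnion fun i => (b.repr (k i)).support),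
      ((b.repr (k i) β : ℚ) : W.K) * b β := by
    intro i
    conv_lhs => rw [← b.linearCombination_repr (k i)]
    rw [Finsupp.linearCombination_apply, Finsupp.sum]
    refine Finset.sum_subset_zero_on_sdiff ?_ ?_ ?_
    · intro β hβ
      exact Finset.mem_biUnion.2 ⟨i, Finset.mem_univ _, hβ⟩
    · intro β hβ
      have h6 := Finsupp.notMem_support_iff.1 (Finset.mem_sdiff.1 hβ).2
      rw [h6, Rat.cast_zero, zero_mul]
    · intro β _
      rw [Rat.smul_def]
  calc ∑ i, k i • (v i : W.H Y) = ∑ i, ∑ β ∈ (Finset.univ.biUnion fun i =>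
        (b.repr (k i)).support), (((b.repr (k i) β : ℚ) : W.K) * b β) • (v i : W.H Y) := by
        refine Finset.sum_congr rfl fun i _ => ?_
        rw [← Finset.sum_smul, ← h5 i]
    _ = 0 := by
        rw [Finset.sum_comm]
        refine Finset.sum_eq_zero fun β _ => ?_
        have h7 := congrArg (fun x => b β • x) (hcomp β)
        beta_reduce at h7
        rw [smul_zero, Finset.smul_sum] at h7
        rw [← h7]
        refine Finset.sum_congr rfl fun i _ => ?_
        rw [smul_smul, mul_comm]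

theorem nc_iff {Y : 𝒱.Obj} {E : W.H Y →ₗ[W.K] W.H Y} (hE : RoofOp Y E)
    (hi : ∀ y, E (E y) = E y) : NCHomEqNum Y E ↔ Sub (radSys W) (botSys W) Y E := by
  rw [sub_rad, Submodule.eq_bot_iff]
  constructor
  · intro h y hy
    have h1 : y ∈ Submodule.span W.K {v | v ∈ cyc W Y ∧ E v = v} := by
      rw [← mem_fixed.1 hy.2]
      have h2 : ∀ x ∈ algSpan W Y, E x ∈ Submodule.span W.K {v | v ∈ cyc W Y ∧ E v = v} := by
        intro x hx
        induction hx using Submodule.span_induction with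
        | mem x hx =>
          obtain ⟨j, hj⟩ := Set.mem_iUnion.1 hx
          exact Submodule.subset_span ⟨hE.cyc (cyc_of hj), hi x⟩
        | zero => rw [map_zero]; exact Submodule.zero_mem _
        | add a b _ _ ha hb => rw [map_add]; exact Submodule.add_mem _ ha hb
        | smul r a _ ha => rw [map_smul]; exact Submodule.smul_mem _ _ ha
      exact h2 y hy.1.1
    refine span_descent (S := {v | v ∈ cyc W Y ∧ E v = v}) (fun v hv => hv.1) ?_ ?_
      ⟨zero_mem _, map_zero _⟩ (fun v hv h0 => h v hv.1 hv.2 h0) h1 fun w hw => ?_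
    · rintro v ⟨hv, hv'⟩ w ⟨hw, hw'⟩
      exact ⟨add_mem hv hw, by rw [map_add, hv', hw']⟩
    · rintro q v ⟨hv, hv'⟩
      exact ⟨cyc_smul q hv, by rw [map_smul, hv']⟩
    · exact trans_alg hy.1.2 (cyc_alg hw)
  · intro h y hy hEy hnum
    refine h y ⟨⟨cyc_alg hy, mem_trans'.2 fun c hc => ?_⟩, hEy⟩
    induction hc using Submodule.span_induction with
    | mem x hx =>
      obtain ⟨j, hj⟩ := Set.mem_iUnion.1 hx
      exact hnum x (cyc_of hj)
    | zero => rw [map_zero]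
    | add a b _ _ ha hb => rw [map_add, ha, hb, add_zero]
    | smul r a _ ha => rw [map_smul, ha, smul_zero]

theorem roof_list (X : ι → 𝒱.Obj) {Z : 𝒱.Obj} {e : W.H (Z.prod Z)} (he : IsProjector Z e)
    (L : List ι) : RoofOp (prodList X Z L) (listOp X (ncOp e) L) ∧
      ∀ y, listOp X (ncOp e) L (listOp X (ncOp e) L y) = listOp X (ncOp e) L y := by
  induction L with
  | nil => exact ⟨⟨Z.prod Z, fst Z Z, snd Z Z, e, he.mem, fun y => rfl⟩, he.idem⟩
  | cons i L ih => exact ⟨ih.1.prod (X i), prodOp_comp (X i) _ ih.2⟩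

theorem nc_list (X : ι → 𝒱.Obj) {Z : 𝒱.Obj} {e : W.H (Z.prod Z)} (he : IsProjector Z e)
    (L : List ι) : NCHomEqNum (prodList X Z L) (listOp X (ncOp e) L) ↔
      Sub (radSys W) (botSys W) (prodList X Z L) (listOp X (ncOp e) L) :=
  nc_iff (roof_list X he L).1 (roof_list X he L).2

end Pool.Agent.X227.MS
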