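import Pool.Agent.X227.MS.NC

/-!
# The noncommutative standard conjecture D on products
-/

open CategoryTheory AlgebraicGeometry Finset Function

set_option linter.unusedSectionVars false

universe u v w

namespace Pool.Agent.X227.MS

open Pool.Agent.H914 Pool.Agent.H914.VarClass Pool.Agent.H914.VarClass.Obj
  Pool.Agent.H914.WeilCohomology Pool.Agent.H281R3.HT Pool.Agent.W552 Pool.Agent.TH125.Gal
  Pool.Agent.Y132.AF Pool.Agent.Y132.AH Pool.Agent.X227.DN Pool.Agent.X227.MM

variable {k : Type u} [Field k] {𝒱 : VarClass k} {ops : CycleOps 𝒱}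
  {W : WeilCohomology.{u, 0} ops} {Γ : Type} [Group Γ] {ι : Type} (Ψ : HodgeData W)

theorem hodgeComp_alg {Y : 𝒱.Obj} {y : W.H Y} (hy : y ∈ algSpan W Y) : HodgeComp Ψ Y y := by
  intro m
  by_cases hm : Even m
  · obtain ⟨j, hj⟩ := hm
    have e : m = 2 * j := by omega
    subst e
    refine Or.inr ⟨j, rfl, Submodule.span_mono ?_ (alg_comp hy j)⟩
    rintro c ⟨z, hz, rfl⟩
    exact isHodge_cyc Ψ hz
  · exact Or.inl (alg_odd hy hm)

/-- **The noncommutative standard conjecture D on products.** -/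
theorem nc_general [IsAlgClosed W.K] [DecidableEq ι] {X : ι → 𝒱.Obj} (Z : 𝒱.Obj)
    (hX : SpFamily Ψ X) :
    ∃ B : Finset ι, ∑ i ∈ B, trDim W (X i) ≤ totDim W Z ∧ (∀ i ∈ B, ¬TypeSep Ψ (X i) Z) ∧
      ∀ e : W.H (Z.prod Z), IsProjector Z e → ∀ L : List ι,
        (NCHomEqNum (prodList X Z L) (listOp X (ncOp e) L) ↔
          ∀ L' : List ι, L'.Sublist L → SmallHodge Ψ X Z B L' →
            NCHomEqNum (prodList X Z L') (listOp X (ncOp e) L')) := by
  obtain ⟨B, h1, h2, h3⟩ := hodge_sys Ψ Z hX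
  refine ⟨B, h1, h2, fun e he L => ?_⟩
  have h4 := h3 (radSys W) (botSys W) (ncOp e) L fun Y E y hy => hodgeComp_alg Ψ hy.1.1
  rw [nc_list X he, h4]
  exact forall_congr' fun L' => forall_congr' fun _ => forall_congr' fun _ =>
    (nc_list X he L').symm

theorem nc_separated [IsAlgClosed W.K] {X : ι → 𝒱.Obj} (Z : 𝒱.Obj)
    (hX : SpFamily Ψ X) (hsep : ∀ i, TypeSep Ψ (X i) Z) (n : ℕ)
    (e : W.H ((powN Z n).prod (powN Z n))) (he : IsProjector (powN Z n) e) (L : List ι) :
    NCHomEqNum (prodList X (powN Z n) L) (listOp X (ncOp e) L) ↔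
      NCHomEqNum (powN Z n) (ncOp e) := by
  classical
  obtain ⟨B, -, h2, h3⟩ := nc_general Ψ (powN Z n) hX
  rw [h3 e he L]
  constructor
  · intro h
    have h4 := (h3 e he L).2 h
    have hone : ∀ i, (1 : W.H (X i)) ≠ 0 := by
      intro i h0
      obtain ⟨F, x, hx, y, hy, hx0, -⟩ := ((adFamily Ψ hX).var i).act.hyperbolic
      apply hx0
      rw [← one_mul x]
      change (1 : W.H (X i)) * x = 0
      rw [h0, zero_mul]
    have h5 := sys_sublist (ℳ := radSys W) (𝒩 := botSys W) (Z := powN Z n)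
      (E := ncOp e) (fun i => (hX.var i).homEqNum) hone (List.nil_sublist L)
    exact (nc_list X he []).2 (h5 ((nc_list X he L).1 h4))
  · intro h L' _ hs
    have h5 : L' = [] := by
      rw [List.eq_nil_iff_forall_not_mem]
      exact fun i hi => h2 i (hs.mem i hi) (typeSep_pow Ψ (hsep i) n)
    rw [h5]
    exact h

end Pool.Agent.X227.MS
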