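import Pool.Agent.X227.MS.NCDefs
import Pool.Agent.Y132.AH.HDefs

/-!
# The noncommutative Hodge conjecture: definitions
-/

open CategoryTheory AlgebraicGeometry

universe u

namespace Pool.Agent.X227.MS

open Pool.Agent.H914 Pool.Agent.H914.VarClass Pool.Agent.H914.VarClass.Obj
  Pool.Agent.H914.WeilCohomology Pool.Agent.Y132.AH

variable {k : Type u} [Field k] {𝒱 : VarClass k} {ops : CycleOps 𝒱}
  {W : WeilCohomology.{u, 0} ops}

/-- The sums of Hodge classes on `Y` of degrees `2 j`, for all `j`: the rational Hodge classes in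
`K_0^top(Y)_ℚ`. -/
def hdg (Ψ : HodgeData W) (Y : 𝒱.Obj) : AddSubgroup (W.H Y) :=
  AddSubgroup.closure {c | ∃ j, IsHodge Ψ Y j c}

/-- **The noncommutative Hodge conjecture** for the direct summand of the noncommutative motive
of `Y` which is the image of the operator `E`: if `y` is a sum of Hodge classes (of even degrees) on
`Y` and fixed by `E` then it is the class of a cycle of mixed codimension with rational
coefficients. -/
def NCHodge (Ψ : HodgeData W) (Y : 𝒱.Obj) (E : W.H Y →ₗ[W.K] W.H Y) : Prop :=
  ∀ y ∈ hdg Ψ Y, E y = y → y ∈ cyc W Y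

end Pool.Agent.X227.MS
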