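import Pool.Agent.X227.MS.NCMain
import Pool.Agent.X227.MS.NHDefs

/-!
# The noncommutative Hodge conjecture on products
-/

open CategoryTheory AlgebraicGeometry Finset Function
open Pool.Agent.Y132.EP (DG tow idm map_idm exm map_exm)

set_option linter.unusedSectionVars false

universe u v w

namespace Pool.Agent.X227.MS

open Pool.Agent.H914 Pool.Agent.H914.VarClass Pool.Agent.H914.VarClass.Obj
  Pool.Agent.H914.WeilCohomology Pool.Agent.H281R3.HT Pool.Agent.W552 Pool.Agent.TH125.Gal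
  Pool.Agent.Y132.AF Pool.Agent.Y132.AH Pool.Agent.X227.DN Pool.Agent.X227.MM

variable {k : Type u} [Field k] {𝒱 : VarClass k} {ops : CycleOps 𝒱}
  {W : WeilCohomology.{u, 0} ops} {ι : Type}

/-- A class system gives the classes fixed by the operator. -/
def ofSys (𝒞 : ClassSystem W) : ESys W where
  S Y E := 𝒞.C Y ⊓ fixed E
  mul_mem := fun ha hc hy => ⟨𝒞.mul_mem (𝒞.alg_le _ ha) hy.1, mem_fixed.2 (by
    rw [hc, mem_fixed.1 hy.2])⟩
  map_mem := fun f _ _ _ hf hy => ⟨𝒞.map_mem f hy.1, mem_fixed.2 (by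
    rw [← hf, mem_fixed.1 hy.2])⟩
  push_mem := fun f _ _ _ hf hy => ⟨𝒞.push_mem f hy.1, mem_fixed.2 (by
    rw [← hf, mem_fixed.1 hy.2])⟩

/-- Classes of degree `2 j` which are closed under the operations, with rational coefficients. -/
structure GCls (P : ∀ X : 𝒱.Obj, ℕ → W.H X → Prop) : Prop where
  cyc : ∀ X j z, X.IsCyc j z → P X j (W.cl X z)
  add : ∀ X j a b, P X j a → P X j b → P X j (a + b)
  smul : ∀ X j a (q : ℚ), P X j a → P X j ((q : W.K) • a)
  mul : ∀ X i j a b, P X i a → P X j b → P X (i + j) (a * b)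
  map : ∀ {X Y : 𝒱.Obj} (f : X ⟶ Y) j b, P Y j b → P X j (W.map f b)
  push : ∀ {X Y : 𝒱.Obj} (f : X ⟶ Y) j l a, l + X.dim = j + Y.dim → P X j a →
      P Y l (W.push f a)
  gr : ∀ X j a, P X j a → a ∈ W.gr X (2 * j)

namespace GCls

variable {P Q : ∀ X : 𝒱.Obj, ℕ → W.H X → Prop}

/-- The sums of the classes. -/
def mix (P : ∀ X : 𝒱.Obj, ℕ → W.H X → Prop) (Y : 𝒱.Obj) : AddSubgroup (W.H Y) :=
  AddSubgroup.closure {c | ∃ j, P Y j c}

theorem zero' (h : GCls P) {X : 𝒱.Obj} {i : ℕ} {a : W.H X} (ha : P X i a) : P X i 0 := by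
  have h1 := h.smul X i a 0 ha
  rwa [Rat.cast_zero, zero_smul] at h1

theorem push_zero (h : GCls P) {X Y : 𝒱.Obj} (f : X ⟶ Y) {j : ℕ} {a : W.H X}
    (hj : j + Y.dim < X.dim) (ha : P X j a) : W.push f a = 0 := by
  refine ext_prj (W.isInternal _) fun m => ?_
  rw [map_zero]
  exact gr_push f (h.gr X j a ha) (by omega)

/-- The class system. -/
def sys (h : GCls P) : ClassSystem W :=
  mkSystem P h.cyc h.mul h.map h.push fun f _ _ hj ha => h.push_zero f hj ha

theorem sys_C (h : GCls P) (Y : 𝒱.Obj) : h.sys.C Y = Submodule.span W.K {c | ∃ j, P Y j c} := rfl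

theorem mix_ind {Y : 𝒱.Obj} {p : W.H Y → Prop} (h : ∀ j y, P Y j y → p y)
    (h0 : p 0) (ha : ∀ x y, p x → p y → p (x + y)) (hn : ∀ x, p x → p (-x)) {y : W.H Y}
    (hy : y ∈ mix P Y) : p y := by
  induction hy using AddSubgroup.closure_induction with
  | mem x hx =>
    obtain ⟨j, hj⟩ := hx
    exact h j x hj
  | zero => exact h0
  | add x y _ _ hx hy => exact ha x y hx hy
  | neg x _ hx => exact hn x hx

theorem mix_of {Y : 𝒱.Obj} {j : ℕ} {y : W.H Y} (h : P Y j y) : y ∈ mix P Y :=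
  AddSubgroup.subset_closure ⟨j, h⟩

theorem mix_mono (hPQ : ∀ Y j y, P Y j y → Q Y j y) {Y : 𝒱.Obj} {y : W.H Y} (h : y ∈ mix P Y) :
    y ∈ mix Q Y :=
  mix_ind (fun j y hy => mix_of (hPQ Y j y hy)) (zero_mem _) (fun _ _ => add_mem)
    (fun _ => neg_mem) h

theorem mix_smul (h : GCls P) {Y : 𝒱.Obj} (q : ℚ) {y : W.H Y} (hy : y ∈ mix P Y) :
    (q : W.K) • y ∈ mix P Y := by
  refine mix_ind (p := fun y => (q : W.K) • y ∈ mix P Y)
    (fun j y hj => mix_of (h.smul Y j y q hj)) ?_ ?_ ?_ hy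
  · rw [smul_zero]
    exact zero_mem _
  · intro x y hx hy
    rw [smul_add]
    exact add_mem hx hy
  · intro x hx
    rw [smul_neg]
    exact neg_mem hx

theorem mix_mul (h : GCls P) {Y : 𝒱.Obj} {x y : W.H Y} (hx : x ∈ mix P Y) (hy : y ∈ mix P Y) :
    x * y ∈ mix P Y := by
  refine mix_ind (p := fun x => x * y ∈ mix P Y) (fun i x hi => ?_) ?_ ?_ ?_ hx
  · refine mix_ind (p := fun y => x * y ∈ mix P Y) (fun j y hj => ?_) ?_ ?_ ?_ hy
    · exact mix_of (h.mul Y i j x y hi hj)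
    · rw [mul_zero]
      exact zero_mem _
    · intro a b ha hb
      rw [mul_add]
      exact add_mem ha hb
    · intro a ha
      rw [mul_neg]
      exact neg_mem ha
  · rw [zero_mul]
    exact zero_mem _
  · intro a b ha hb
    rw [add_mul]
    exact add_mem ha hb
  · intro a ha
    rw [neg_mul]
    exact neg_mem ha

theorem mix_map (h : GCls P) {Y Y' : 𝒱.Obj} (f : Y ⟶ Y') {y : W.H Y'} (hy : y ∈ mix P Y') :
    W.map f y ∈ mix P Y := by
  refine mix_ind (p := fun y => W.map f y ∈ mix P Y) (fun j y hj => mix_of (h.map f j y hj))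
    ?_ ?_ ?_ hy
  · rw [map_zero]
    exact zero_mem _
  · intro a b ha hb
    rw [map_add]
    exact add_mem ha hb
  · intro a ha
    rw [map_neg]
    exact neg_mem ha

theorem mix_push (h : GCls P) {Y Y' : 𝒱.Obj} (f : Y ⟶ Y') {y : W.H Y} (hy : y ∈ mix P Y) :
    W.push f y ∈ mix P Y' := by
  refine mix_ind (p := fun y => W.push f y ∈ mix P Y') (fun j y hj => ?_) ?_ ?_ ?_ hy
  · by_cases h1 : Y.dim ≤ j + Y'.dim
    · exact mix_of (h.push f j (j + Y'.dim - Y.dim) y (by omega) hj)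
    · rw [h.push_zero f (by omega) hj]
      exact zero_mem _
  · rw [map_zero]
    exact zero_mem _
  · intro a b ha hb
    rw [map_add]
    exact add_mem ha hb
  · intro a ha
    rw [map_neg]
    exact neg_mem ha

theorem mix_le (h : GCls P) {Y : 𝒱.Obj} {y : W.H Y} (hy : y ∈ mix P Y) : y ∈ h.sys.C Y := by
  rw [sys_C]
  exact mix_ind (p := fun y => y ∈ Submodule.span W.K {c | ∃ j, P Y j c})
    (fun j y hj => Submodule.subset_span ⟨j, hj⟩) (Submodule.zero_mem _)
    (fun _ _ => Submodule.add_mem _) (fun _ => Submodule.neg_mem _) hy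

theorem cyc_le (h : GCls P) {Y : 𝒱.Obj} {y : W.H Y} (hy : y ∈ MS.cyc W Y) : y ∈ mix P Y :=
  cyc_ind (p := fun y => y ∈ mix P Y) (fun j y hj => by
    obtain ⟨z, hz, rfl⟩ := hj
    exact mix_of (h.cyc Y j z hz)) (zero_mem _) (fun _ _ => add_mem) (fun _ => neg_mem) hy

theorem roof (h : GCls P) {Y : 𝒱.Obj} {E : W.H Y →ₗ[W.K] W.H Y} (hE : RoofOp Y E) {y : W.H Y}
    (hy : y ∈ mix P Y) : E y ∈ mix P Y := by
  obtain ⟨V, p, q, e, he, hE⟩ := hE
  rw [hE]
  exact h.mix_push _ (h.mix_mul (h.cyc_le he) (h.mix_map _ hy))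

/-- Rational form. -/
theorem sub_iff [IsAlgClosed W.K] (hP : GCls P) (hQ : GCls Q) (Ψ : HodgeData W)
    (hr : ∀ Y j y, P Y j y → ∀ σ, Ψ.coeff Y σ y = y)
    (hr' : ∀ Y j y, Q Y j y → ∀ σ, Ψ.coeff Y σ y = y) {Y : 𝒱.Obj}
    {E : W.H Y →ₗ[W.K] W.H Y} (hE : RoofOp Y E) (hi : ∀ y, E (E y) = E y) :
    (∀ y ∈ mix P Y, E y = y → y ∈ mix Q Y) ↔ Sub (ofSys hP.sys) (ofSys hQ.sys) Y E := by
  constructor
  · intro h y hy
    refine ⟨?_, hy.2⟩
    rw [← mem_fixed.1 hy.2]
    have h1 : y ∈ Submodule.span W.K {c | ∃ j, P Y j c} := hy.1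
    clear hy
    induction h1 using Submodule.span_induction with
    | mem x hx =>
      obtain ⟨j, hj⟩ := hx
      exact hQ.mix_le (h _ (hP.roof hE (mix_of hj)) (hi x))
    | zero => rw [map_zero]; exact Submodule.zero_mem _
    | add a b _ _ ha hb => rw [map_add]; exact Submodule.add_mem _ ha hb
    | smul r a _ ha => rw [map_smul]; exact Submodule.smul_mem _ _ ha
  · intro h y hy hEy
    have h1 : y ∈ Submodule.span W.K {c | ∃ j, Q Y j c} := (h y ⟨hP.mix_le hy, hEy⟩).1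
    have hfix : ∀ {R : ∀ X : 𝒱.Obj, ℕ → W.H X → Prop}, (∀ Y j y, R Y j y → ∀ σ,
        Ψ.coeff Y σ y = y) → ∀ y ∈ mix R Y, ∀ σ, Ψ.coeff Y σ y = y := by
      intro R hR y hy σ
      refine mix_ind (p := fun y => Ψ.coeff Y σ y = y) (fun j y hj => hR Y j y hj σ)
        (map_zero _) ?_ ?_ hy
      · intro a b ha hb
        rw [map_add, ha, hb]
      · intro a ha
        rw [map_neg, ha]
    refine mem_of_mem_span (γ := fun σ a => Ψ.coeff Y σ a) (S := {c | c ∈ mix Q Y})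
      (fun σ a b => map_add _ a b) (Ψ.isCoeffAct Y).smul (fun a ha σ => hfix hr' a ha σ)
      (zero_mem (mix Q Y)) (fun a ha b hb => (mix Q Y).add_mem ha hb)
      (fun q a ha => hQ.mix_smul q ha)
      (hfix hr y hy) (Submodule.span_mono ?_ h1)
    rintro c ⟨j, hj⟩
    exact mix_of hj

end GCls

theorem gcls_alg : GCls (W := W) (fun X j c => c ∈ algClasses W X j) where
  cyc _ _ z hz := ⟨z, hz, rfl⟩
  add _ _ _ _ ha hb := alg_add ha hb
  smul _ _ _ q ha := alg_smul q ha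
  mul := by
    rintro X i j _ _ ⟨z, hz, rfl⟩ ⟨w, hw, rfl⟩
    exact ⟨ops.mul z w, ops.mul_mem hz hw, W.cl_mul z w⟩
  map := by
    rintro X Y f j _ ⟨z, hz, rfl⟩
    exact ⟨ops.pull f z, ops.pull_mem f hz, W.cl_pull f z⟩
  push := by
    rintro X Y f j l _ hl ⟨z, hz, rfl⟩
    exact ⟨ops.push f z, ops.push_mem f hz (by omega), W.cl_push f z⟩
  gr _ _ _ ha := alg_gr ha

theorem gcls_hodge (Ψ : HodgeData W) : GCls (W := W) (fun X j c => IsHodge Ψ X j c) where
  cyc _ _ _ hz := isHodge_cyc Ψ hz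
  add _ _ _ _ ha hb := isHodge_add Ψ ha hb
  smul _ _ _ q ha := isHodge_smul Ψ q ha
  mul _ _ _ _ _ ha hb := isHodge_mul Ψ ha hb
  map f _ _ hb := isHodge_map Ψ f hb
  push f _ _ _ hl ha := isHodge_push Ψ f hl ha
  gr _ _ _ ha := hodge_gr Ψ ha

theorem mix_alg {Y : 𝒱.Obj} : GCls.mix (fun X j c => c ∈ algClasses W X j) Y = cyc W Y := by
  have h : {c | ∃ j, c ∈ algClasses W Y j} = ⋃ j, algClasses W Y j := by
    ext c
    rw [Set.mem_iUnion]
    rfl
  rw [GCls.mix, cyc, h]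

/-- Components of linear combinations of Hodge classes. -/
theorem hodgeComp_span (Ψ : HodgeData W) {Y : 𝒱.Obj} {y : W.H Y}
    (hy : y ∈ Submodule.span W.K {c | ∃ j, IsHodge Ψ Y j c}) : HodgeComp Ψ Y y := by
  have key : ∀ m, (¬Even m → prj (W.isInternal Y) m y = 0) ∧ ∀ j, m = 2 * j →
      prj (W.isInternal Y) m y ∈ Submodule.span W.K {c | IsHodge Ψ Y j c} := by
    intro m
    induction hy using Submodule.span_induction with
    | mem c hc =>
      obtain ⟨i, hi⟩ := hc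
      refine ⟨fun hm => prj_ne _ (fun h => hm (by rw [← h]; exact even_two_mul i))
        (hodge_gr Ψ hi), ?_⟩
      rintro j rfl
      by_cases hij : i = j
      · subst hij
        rw [prj_same _ (hodge_gr Ψ hi)]
        exact Submodule.subset_span hi
      · rw [prj_ne _ (by omega) (hodge_gr Ψ hi)]
        exact Submodule.zero_mem _
    | zero => exact ⟨fun _ => map_zero _, fun j _ => by rw [map_zero]; exact Submodule.zero_mem _⟩
    | add x y _ _ hx hy =>
      exact ⟨fun h => by rw [map_add, hx.1 h, hy.1 h, add_zero],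
        fun j hj => by rw [map_add]; exact Submodule.add_mem _ (hx.2 j hj) (hy.2 j hj)⟩
    | smul r x _ hx =>
      exact ⟨fun h => by rw [map_smul, hx.1 h, smul_zero],
        fun j hj => by rw [map_smul]; exact Submodule.smul_mem _ _ (hx.2 j hj)⟩
  intro m
  by_cases hm : Even m
  · obtain ⟨j, hj⟩ := hm
    exact Or.inr ⟨j, by omega, (key m).2 j (by omega)⟩
  · exact Or.inl ((key m).1 hm)

section hodge

variable (Ψ : HodgeData W)

theorem nch_list [IsAlgClosed W.K] (X : ι → 𝒱.Obj) {Z : 𝒱.Obj} {e : W.H (Z.prod Z)}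
    (he : IsProjector Z e) (L : List ι) :
    NCHodge Ψ (prodList X Z L) (listOp X (ncOp e) L) ↔
      Sub (ofSys (gcls_hodge Ψ).sys) (ofSys gcls_alg.sys) (prodList X Z L)
        (listOp X (ncOp e) L) := by
  rw [← GCls.sub_iff (gcls_hodge Ψ) gcls_alg Ψ (fun Y j y hy σ => hy.2 σ)
    (fun Y j y hy σ => (Ψ.isCoeffAct Y).cl_act σ j y hy) (roof_list X he L).1
    (roof_list X he L).2, mix_alg]
  exact Iff.rfl

/-- **The noncommutative Hodge conjecture on products.** -/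
theorem nch_general [IsAlgClosed W.K] [DecidableEq ι] {X : ι → 𝒱.Obj} (Z : 𝒱.Obj)
    (hX : SpFamily Ψ X) :
    ∃ B : Finset ι, ∑ i ∈ B, trDim W (X i) ≤ totDim W Z ∧ (∀ i ∈ B, ¬TypeSep Ψ (X i) Z) ∧
      ∀ e : W.H (Z.prod Z), IsProjector Z e → ∀ L : List ι,
        (NCHodge Ψ (prodList X Z L) (listOp X (ncOp e) L) ↔
          ∀ L' : List ι, L'.Sublist L → SmallHodge Ψ X Z B L' →
            NCHodge Ψ (prodList X Z L') (listOp X (ncOp e) L')) := by
  obtain ⟨B, h1, h2, h3⟩ := hodge_sys Ψ Z hX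
  refine ⟨B, h1, h2, fun e he L => ?_⟩
  have h4 := h3 (ofSys (gcls_hodge Ψ).sys) (ofSys gcls_alg.sys) (ncOp e) L
    fun Y E y hy => hodgeComp_span Ψ hy.1
  rw [nch_list Ψ X he, h4]
  exact forall_congr' fun L' => forall_congr' fun _ => forall_congr' fun _ =>
    (nch_list Ψ X he L').symm

theorem nch_separated [IsAlgClosed W.K] {X : ι → 𝒱.Obj} (Z : 𝒱.Obj)
    (hX : SpFamily Ψ X) (hsep : ∀ i, TypeSep Ψ (X i) Z) (n : ℕ)
    (e : W.H ((powN Z n).prod (powN Z n))) (he : IsProjector (powN Z n) e) (L : List ι) :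
    NCHodge Ψ (prodList X (powN Z n) L) (listOp X (ncOp e) L) ↔
      NCHodge Ψ (powN Z n) (ncOp e) := by
  classical
  obtain ⟨B, -, h2, h3⟩ := nch_general Ψ (powN Z n) hX
  rw [h3 e he L]
  constructor
  · intro h
    have h4 := (h3 e he L).2 h
    have hone : ∀ i, (1 : W.H (X i)) ≠ 0 := by
      intro i h0
      obtain ⟨F, x, hx, y, hy, hx0, -⟩ := ((adFamily Ψ hX).var i).act.hyperbolic
      apply hx0
      rw [← one_mul x]
      change (1 : W.H (X i)) * x = 0
      rw [h0, zero_mul]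
    have h5 := sys_sublist (ℳ := ofSys (gcls_hodge Ψ).sys) (𝒩 := ofSys gcls_alg.sys)
      (Z := powN Z n) (E := ncOp e) (fun i => (hX.var i).homEqNum) hone (List.nil_sublist L)
    exact (nch_list Ψ X he []).2 (h5 ((nch_list Ψ X he L).1 h4))
  · intro h L' _ hs
    have h5 : L' = [] := by
      rw [List.eq_nil_iff_forall_not_mem]
      exact fun i hi => h2 i (hs.mem i hi) (typeSep_pow Ψ (hsep i) n)
    rw [h5]
    exact h

end hodge

end Pool.Agent.X227.MS
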