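import Pool.Agent.X227.DN.Rad

/-!
# Operators on the second factor of a product
-/

open CategoryTheory AlgebraicGeometry Finset Function
open Pool.Agent.Y132.EP (DG tow idm map_idm exm map_exm)

set_option linter.unusedSectionVars false

universe u v w

namespace Pool.Agent.X227.MS

open Pool.Agent.H914 Pool.Agent.H914.VarClass Pool.Agent.H914.VarClass.Obj
  Pool.Agent.H914.WeilCohomology Pool.Agent.H281R3.HT Pool.Agent.W552 Pool.Agent.TH125.Gal
  Pool.Agent.Y132.AF

variable {k : Type u} [Field k] {𝒱 : VarClass k} {ops : CycleOps 𝒱}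
  {W : WeilCohomology.{u, 0} ops}

/-- The operator `1 × E` on the cohomology of `A × B`. -/
noncomputable def prodOp (A : 𝒱.Obj) {B : 𝒱.Obj} (E : W.H B →ₗ[W.K] W.H B) :
    W.H (A.prod B) →ₗ[W.K] W.H (A.prod B) :=
  (kEquiv W A B).toLinearMap ∘ₗ (LinearMap.lTensor (W.H A) E) ∘ₗ
    (kEquiv W A B).symm.toLinearMap

theorem prodOp_ext (A : 𝒱.Obj) {B : 𝒱.Obj} (E : W.H B →ₗ[W.K] W.H B) (a : W.H A) (b : W.H B) :
    prodOp A E (W.map (fst A B) a * W.map (snd A B) b) =
      W.map (fst A B) a * W.map (snd A B) (E b) := by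
  change kEquiv W A B (LinearMap.lTensor (W.H A) E ((kEquiv W A B).symm _)) = _
  rw [kEquiv_symm, LinearMap.lTensor_tmul, kEquiv_tmul]

theorem prodOp_unique (A : 𝒱.Obj) {B : 𝒱.Obj} (E : W.H B →ₗ[W.K] W.H B)
    (T : W.H (A.prod B) →ₗ[W.K] W.H (A.prod B))
    (h : ∀ a b, T (W.map (fst A B) a * W.map (snd A B) b) =
      W.map (fst A B) a * W.map (snd A B) (E b)) : T = prodOp A E := by
  refine LinearMap.ext fun y => ?_
  refine kun_ext (L := fun y => T y) (L' := fun y => prodOp A E y) (fun a b => map_add _ _ _)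
    (fun a b => map_add _ _ _) (fun a z => ?_) y
  beta_reduce
  rw [h, prodOp_ext]

theorem prodOp_id (A : 𝒱.Obj) {B : 𝒱.Obj} :
    prodOp A (LinearMap.id : W.H B →ₗ[W.K] W.H B) = LinearMap.id :=
  (prodOp_unique A _ _ fun _ _ => rfl).symm

/-- `f` intertwines the operators, for the pull-back. -/
def IntM {Y Y' : 𝒱.Obj} (f : Y ⟶ Y') (E : W.H Y →ₗ[W.K] W.H Y) (E' : W.H Y' →ₗ[W.K] W.H Y') :
    Prop := ∀ y, W.map f (E' y) = E (W.map f y)

/-- `f` intertwines the operators, for the push-forward. -/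
def IntP {Y Y' : 𝒱.Obj} (f : Y ⟶ Y') (E : W.H Y →ₗ[W.K] W.H Y) (E' : W.H Y' →ₗ[W.K] W.H Y') :
    Prop := ∀ y, W.push f (E y) = E' (W.push f y)

/-- The multiplication by `a` commutes with the operator. -/
def Comm {Y : 𝒱.Obj} (a : W.H Y) (E : W.H Y →ₗ[W.K] W.H Y) : Prop := ∀ y, E (a * y) = a * E y

theorem IntM.id {Y : 𝒱.Obj} (E : W.H Y →ₗ[W.K] W.H Y) : IntM (𝟙 Y) E E := fun y => by
  rw [W.map_id, W.map_id]

theorem IntM.comp {Y Y' Y'' : 𝒱.Obj} {f : Y ⟶ Y'} {g : Y' ⟶ Y''} {E : W.H Y →ₗ[W.K] W.H Y}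
    {E' : W.H Y' →ₗ[W.K] W.H Y'} {E'' : W.H Y'' →ₗ[W.K] W.H Y''} (hf : IntM f E E')
    (hg : IntM g E' E'') : IntM (f ≫ g) E E'' := fun y => by
  rw [W.map_comp, W.map_comp, hg, hf]

theorem IntP.comp {Y Y' Y'' : 𝒱.Obj} {f : Y ⟶ Y'} {g : Y' ⟶ Y''} {E : W.H Y →ₗ[W.K] W.H Y}
    {E' : W.H Y' →ₗ[W.K] W.H Y'} {E'' : W.H Y'' →ₗ[W.K] W.H Y''} (hf : IntP f E E')
    (hg : IntP g E' E'') : IntP (f ≫ g) E E'' := fun y => by
  rw [W.push_comp, W.push_comp, hf, hg]

theorem IntM.snd (A : 𝒱.Obj) {B : 𝒱.Obj} (E : W.H B →ₗ[W.K] W.H B) :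
    IntM (snd A B) (prodOp A E) E := fun y => by
  have h := prodOp_ext A E 1 y
  rw [map_one, one_mul, one_mul] at h
  exact h.symm

theorem IntP.snd (A : 𝒱.Obj) {B : 𝒱.Obj} (E : W.H B →ₗ[W.K] W.H B) :
    IntP (snd A B) (prodOp A E) E := by
  intro y
  refine kun_ext (L := fun y => W.push (Obj.snd A B) (prodOp A E y))
    (L' := fun y => E (W.push (Obj.snd A B) y)) (fun a b => by beta_reduce; rw [map_add, map_add])
    (fun a b => by beta_reduce; rw [map_add, map_add]) (fun a z => ?_) y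
  beta_reduce
  rw [prodOp_ext, W.push_snd, W.push_snd, map_smul]

theorem IntM.idm (A : 𝒱.Obj) {B B' : 𝒱.Obj} {φ : B ⟶ B'} {E : W.H B →ₗ[W.K] W.H B}
    {E' : W.H B' →ₗ[W.K] W.H B'} (h : IntM φ E E') :
    IntM (idm A φ) (prodOp A E) (prodOp A E') := by
  intro y
  refine kun_ext (L := fun y => W.map (Pool.Agent.Y132.EP.idm A φ) (prodOp A E' y))
    (L' := fun y => prodOp A E (W.map (Pool.Agent.Y132.EP.idm A φ) y))
    (fun a b => by beta_reduce; rw [map_add, map_add])
    (fun a b => by beta_reduce; rw [map_add, map_add]) (fun a z => ?_) y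
  beta_reduce
  rw [prodOp_ext, map_idm, map_idm, prodOp_ext, h]

theorem IntP.idm (A : 𝒱.Obj) {B B' : 𝒱.Obj} {φ : B ⟶ B'} {E : W.H B →ₗ[W.K] W.H B}
    {E' : W.H B' →ₗ[W.K] W.H B'} (h : IntP φ E E') :
    IntP (idm A φ) (prodOp A E) (prodOp A E') := by
  intro y
  refine kun_ext (L := fun y => W.push (Pool.Agent.Y132.EP.idm A φ) (prodOp A E y))
    (L' := fun y => prodOp A E' (W.push (Pool.Agent.Y132.EP.idm A φ) y))
    (fun a b => by beta_reduce; rw [map_add, map_add])
    (fun a b => by beta_reduce; rw [map_add, map_add]) (fun a z => ?_) y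
  beta_reduce
  rw [prodOp_ext, Pool.Agent.X227.DN.push_idm, Pool.Agent.X227.DN.push_idm, prodOp_ext, h]

theorem IntM.exm (A A' : 𝒱.Obj) {B : 𝒱.Obj} (E : W.H B →ₗ[W.K] W.H B) :
    IntM (exm A A' B) (prodOp A (prodOp A' E)) (prodOp A' (prodOp A E)) := by
  intro y
  refine W.kunneth_induction (p := fun y => W.map (Pool.Agent.Y132.EP.exm A A' B)
    (prodOp A' (prodOp A E) y) = prodOp A (prodOp A' E)
      (W.map (Pool.Agent.Y132.EP.exm A A' B) y)) ?_ ?_ y
  · intro a b ha hb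
    rw [map_add, map_add, ha, hb, map_add, map_add]
  · intro i j a ha w _
    refine W.kunneth_induction (p := fun w => W.map (Pool.Agent.Y132.EP.exm A A' B)
      (prodOp A' (prodOp A E) (W.map (Obj.fst A' (A.prod B)) a *
        W.map (Obj.snd A' (A.prod B)) w)) = prodOp A (prodOp A' E)
          (W.map (Pool.Agent.Y132.EP.exm A A' B) (W.map (Obj.fst A' (A.prod B)) a *
            W.map (Obj.snd A' (A.prod B)) w))) ?_ ?_ w
    · intro w w' hw hw'
      rw [map_add, mul_add, map_add, map_add, hw, hw', map_add, map_add]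
    · intro i' j' a' ha' b _
      rw [prodOp_ext, prodOp_ext, map_exm, map_exm]
      have h1 : ∀ z : W.H B, W.map (Obj.snd A (A'.prod B)) (W.map (Obj.fst A' B) a) *
          (W.map (Obj.fst A (A'.prod B)) a' * W.map (Obj.snd A (A'.prod B))
            (W.map (Obj.snd A' B) z)) = (-1 : W.K) ^ (i * i') •
          (W.map (Obj.fst A (A'.prod B)) a' * W.map (Obj.snd A (A'.prod B))
            (W.map (Obj.fst A' B) a * W.map (Obj.snd A' B) z)) := by
        intro z
        have h2 : W.map (Obj.snd A (A'.prod B)) (W.map (Obj.fst A' B) a) *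
            W.map (Obj.fst A (A'.prod B)) a' = (-1 : W.K) ^ (i * i') •
            (W.map (Obj.fst A (A'.prod B)) a' *
              W.map (Obj.snd A (A'.prod B)) (W.map (Obj.fst A' B) a)) :=
          W.comm (W.map_mem _ (W.map_mem _ ha)) (W.map_mem _ ha')
        rw [← mul_assoc, h2, smul_mul_assoc, mul_assoc, ← map_mul]
      rw [h1, h1, map_smul, prodOp_ext, prodOp_ext]

theorem Comm.fst (A : 𝒱.Obj) {B : 𝒱.Obj} (E : W.H B →ₗ[W.K] W.H B) (a : W.H A) :
    Comm (W.map (Obj.fst A B) a) (prodOp A E) := by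
  intro y
  refine kun_ext (L := fun y => prodOp A E (W.map (Obj.fst A B) a * y))
    (L' := fun y => W.map (Obj.fst A B) a * prodOp A E y)
    (fun a b => by beta_reduce; rw [mul_add, map_add])
    (fun a b => by beta_reduce; rw [map_add, mul_add]) (fun x z => ?_) y
  beta_reduce
  rw [← mul_assoc, ← map_mul, prodOp_ext, prodOp_ext, map_mul, mul_assoc]

theorem Comm.snd (A : 𝒱.Obj) {B : 𝒱.Obj} {E : W.H B →ₗ[W.K] W.H B} {b : W.H B}
    (hb : b ∈ algSpan W B) (h : Comm b E) : Comm (W.map (Obj.snd A B) b) (prodOp A E) := by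
  intro y
  refine kun_ext (L := fun y => prodOp A E (W.map (Obj.snd A B) b * y))
    (L' := fun y => W.map (Obj.snd A B) b * prodOp A E y)
    (fun a b => by beta_reduce; rw [mul_add, map_add])
    (fun a b => by beta_reduce; rw [map_add, mul_add]) (fun x z => ?_) y
  beta_reduce
  have h1 : ∀ z, W.map (Obj.snd A B) b * (W.map (Obj.fst A B) x * W.map (Obj.snd A B) z) =
      W.map (Obj.fst A B) x * W.map (Obj.snd A B) (b * z) := by
    intro z
    rw [← mul_assoc, alg_comm (algSpan_map _ hb), mul_assoc, ← map_mul]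
  rw [h1, prodOp_ext, prodOp_ext, h1, h]

/-- Multiplication by the classes of the first two factors. -/
theorem Comm.pair (A A' : 𝒱.Obj) {B : 𝒱.Obj} (E : W.H B →ₗ[W.K] W.H B)
    (d : W.H (A.prod A')) : Comm (W.map (Obj.lift (Obj.fst A (A'.prod B))
      (Obj.snd A (A'.prod B) ≫ Obj.fst A' B)) d) (prodOp A (prodOp A' E)) := by
  refine W.kunneth_induction (p := fun d => Comm (W.map (Obj.lift (Obj.fst A (A'.prod B))
      (Obj.snd A (A'.prod B) ≫ Obj.fst A' B)) d) (prodOp A (prodOp A' E))) ?_ ?_ d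
  · intro a b ha hb y
    rw [map_add, add_mul, map_add, ha, hb, add_mul]
  intro i i' t _ t' ht' y
  have e : W.map (Obj.lift (Obj.fst A (A'.prod B)) (Obj.snd A (A'.prod B) ≫ Obj.fst A' B))
      (W.map (Obj.fst A A') t * W.map (Obj.snd A A') t') = W.map (Obj.fst A (A'.prod B)) t *
        W.map (Obj.snd A (A'.prod B)) (W.map (Obj.fst A' B) t') := by
    rw [map_mul, ← W.map_comp, ← W.map_comp, Obj.lift_fst, Obj.lift_snd, W.map_comp]
  rw [e]
  refine W.kunneth_induction (p := fun y => prodOp A (prodOp A' E)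
    (W.map (Obj.fst A (A'.prod B)) t * W.map (Obj.snd A (A'.prod B))
      (W.map (Obj.fst A' B) t') * y) = W.map (Obj.fst A (A'.prod B)) t *
        W.map (Obj.snd A (A'.prod B)) (W.map (Obj.fst A' B) t') *
          prodOp A (prodOp A' E) y) ?_ ?_ y
  · intro a b ha hb
    rw [mul_add, map_add, map_add, ha, hb, mul_add]
  intro j j' a ha w _
  refine kun_ext (L := fun w => prodOp A (prodOp A' E)
    (W.map (Obj.fst A (A'.prod B)) t * W.map (Obj.snd A (A'.prod B))
      (W.map (Obj.fst A' B) t') * (W.map (Obj.fst A (A'.prod B)) a *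
        W.map (Obj.snd A (A'.prod B)) w))) (L' := fun w => W.map (Obj.fst A (A'.prod B)) t *
        W.map (Obj.snd A (A'.prod B)) (W.map (Obj.fst A' B) t') *
          prodOp A (prodOp A' E) (W.map (Obj.fst A (A'.prod B)) a *
        W.map (Obj.snd A (A'.prod B)) w))
    (fun a b => by beta_reduce; rw [map_add, mul_add, mul_add, map_add])
    (fun a b => by beta_reduce; rw [map_add, mul_add, map_add, mul_add]) (fun b z => ?_) w
  beta_reduce
  rw [prodOp_ext, prodOp_ext, Pool.Agent.X227.DN.ext_swap (W.map_mem _ ht') ha,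
    Pool.Agent.X227.DN.ext_swap (W.map_mem _ ht') ha, map_smul, prodOp_ext, ← mul_assoc,
    ← mul_assoc, ← map_mul, prodOp_ext]

end Pool.Agent.X227.MS
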