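import Pool.Agent.X227.MS.Op
import Pool.Agent.X227.DN.Contr

/-!
# Systems of classes and classes on towers, with an operator on the base
-/

open CategoryTheory AlgebraicGeometry Finset Function
open Pool.Agent.Y132.EP (DG tow idm map_idm exm map_exm)

set_option linter.unusedSectionVars false

universe u v w

namespace Pool.Agent.X227.MS

open Pool.Agent.H914 Pool.Agent.H914.VarClass Pool.Agent.H914.VarClass.Obj
  Pool.Agent.H914.WeilCohomology Pool.Agent.H281R3.HT Pool.Agent.W552 Pool.Agent.TH125.Gal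
  Pool.Agent.Y132.AF Pool.Agent.X227.DN

variable {k : Type u} [Field k] {𝒱 : VarClass k} {ops : CycleOps 𝒱}
  {W : WeilCohomology.{u, 0} ops}

/-- A system of classes on the varieties with an operator on the cohomology. -/
structure ESys (W : WeilCohomology.{u, 0} ops) where
  /-- the classes -/
  S : ∀ Y : 𝒱.Obj, (W.H Y →ₗ[W.K] W.H Y) → Submodule W.K (W.H Y)
  mul_mem : ∀ {Y : 𝒱.Obj} {E : W.H Y →ₗ[W.K] W.H Y} {a y : W.H Y}, a ∈ algSpan W Y →
    Comm a E → y ∈ S Y E → a * y ∈ S Y E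
  map_mem : ∀ {Y Y' : 𝒱.Obj} (f : Y ⟶ Y') {E : W.H Y →ₗ[W.K] W.H Y}
    {E' : W.H Y' →ₗ[W.K] W.H Y'} {y : W.H Y'}, IntM f E E' → y ∈ S Y' E' → W.map f y ∈ S Y E
  push_mem : ∀ {Y Y' : 𝒱.Obj} (f : Y ⟶ Y') {E : W.H Y →ₗ[W.K] W.H Y}
    {E' : W.H Y' →ₗ[W.K] W.H Y'} {y : W.H Y}, IntP f E E' → y ∈ S Y E → W.push f y ∈ S Y' E'

variable {Γ : Type} [Group Γ] {κ : ℕ} {ι : Type} {Λ : Type}

/-- The operator `1 × E` on a tower. -/
noncomputable def towOp (X : ι → DG W Γ) {Z : DG W Γ} (c : Λ → ι)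
    (E : W.H Z.X →ₗ[W.K] W.H Z.X) : ∀ l : List Λ, W.H (tow X Z c l).X →ₗ[W.K]
      W.H (tow X Z c l).X
  | [] => E
  | s :: l => prodOp (X (c s)).X (towOp X c E l)

variable [DecidableEq Λ] {χ : Γ →* W.Kˣ} {X : ι → DG W Γ} {c : Λ → ι}
  {f : ∀ i, SFrame κ (X i).X W}

theorem asm_fstE {A B : DG W Γ} (E : W.H B.X →ₗ[W.K] W.H B.X) (l : List Λ) :
    ∃ (w : (tow X (A.prod B) c l).X ⟶ A.X) (v : (tow X (A.prod B) c l).X ⟶ (tow X B c l).X),
      (∀ e ∈ algSpan W A.X, Comm (W.map w e) (towOp X c (prodOp A.X E) l)) ∧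
      IntM v (towOp X c (prodOp A.X E) l) (towOp X c E l) ∧
      ∀ e ∈ algSpan W A.X, ∀ G : (Λ → Lt κ) → W.H B.X, asm X c f (A.prod B) l
        (fun J => W.map (fst A.X B.X) e * W.map (snd A.X B.X) (G J)) =
          W.map w e * W.map v (asm X c f B l G) := by
  induction l with
  | nil => exact ⟨fst A.X B.X, snd A.X B.X, fun e _ => Comm.fst A.X E e, IntM.snd A.X E,
      fun e _ G => rfl⟩
  | cons t l ih =>
    obtain ⟨w, v, h1, h2, h⟩ := ih
    refine ⟨snd (X (c t)).X (tow X (A.prod B) c l).X ≫ w, idm (X (c t)).X v, fun e he => ?_,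
      IntM.idm _ h2, fun e he G => ?_⟩
    · rw [W.map_comp]
      exact Comm.snd _ (algSpan_map w he) (h1 e he)
    rw [asm_cons, asm_cons, map_sum, Finset.mul_sum]
    refine Finset.sum_congr rfl fun a _ => ?_
    have h1 : upd t a (fun J => W.map (fst A.X B.X) e * W.map (snd A.X B.X) (G J)) =
        fun J => W.map (fst A.X B.X) e * W.map (snd A.X B.X) (upd t a G J) := rfl
    have h2 := map_idm (W := W) (X (c t)).X v ((f (c t)).t a) (asm X c f B l (upd t a G))
    rw [h1, h e he]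
    refine Eq.trans ?_ (congrArg (fun x => W.map (snd (X (c t)).X (tow X (A.prod B) c l).X ≫ w) e *
      x) h2.symm)
    rw [map_mul, W.map_comp, ← mul_assoc, ← mul_assoc,
      alg_comm (algSpan_map (snd (X (c t)).X (tow X (A.prod B) c l).X) (algSpan_map w he))]

/-- Contraction of a factor of the base. -/
theorem asm_ctrE {A B : DG W Γ} (E : W.H B.X →ₗ[W.K] W.H B.X) (l : List Λ) :
    ∃ (w : (tow X (A.prod B) c l).X ⟶ A.X) (v : (tow X (A.prod B) c l).X ⟶ (tow X B c l).X),
      (∀ e ∈ algSpan W A.X, Comm (W.map w e) (towOp X c (prodOp A.X E) l)) ∧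
      IntP v (towOp X c (prodOp A.X E) l) (towOp X c E l) ∧
      ∀ u ∈ algSpan W A.X, ∀ F : (Λ → Lt κ) → W.H (A.prod B).X,
        W.push v (W.map w u * asm X c f (A.prod B) l F) =
          asm X c f B l (fun J => ctr (bil W A.X u) (F J)) := by
  induction l with
  | nil => exact ⟨fst A.X B.X, snd A.X B.X, fun e _ => Comm.fst A.X E e, IntP.snd A.X E,
      fun u _ F => (ctr_bil u _).symm⟩
  | cons t l ih =>
    obtain ⟨w, v, h1, h2, h⟩ := ih
    refine ⟨snd (X (c t)).X (tow X (A.prod B) c l).X ≫ w, idm (X (c t)).X v, fun e he => ?_,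
      IntP.idm _ h2, fun u hu F => ?_⟩
    · rw [W.map_comp]
      exact Comm.snd _ (algSpan_map w he) (h1 e he)
    rw [asm_cons, asm_cons]
    rw [Finset.mul_sum, map_sum]
    refine Finset.sum_congr rfl fun a _ => ?_
    have h1 : W.map (snd (X (c t)).X (tow X (A.prod B) c l).X ≫ w) u *
        (W.map (fst (X (c t)).X (tow X (A.prod B) c l).X) ((f (c t)).t a) *
          W.map (snd (X (c t)).X (tow X (A.prod B) c l).X)
            (asm X c f (A.prod B) l (upd t a F))) =
        W.map (fst (X (c t)).X (tow X (A.prod B) c l).X) ((f (c t)).t a) *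
          W.map (snd (X (c t)).X (tow X (A.prod B) c l).X)
            (W.map w u * asm X c f (A.prod B) l (upd t a F)) := by
      rw [← mul_assoc, alg_comm (algSpan_map _ hu), mul_assoc, W.map_comp, ← map_mul]
    rw [h1]
    refine (push_idm (X (c t)).X v _ _).trans ?_
    rw [h u hu]
    rfl

/-- The last factor. -/
theorem asm_snocE {B : DG W Γ} (E : W.H B.X →ₗ[W.K] W.H B.X) {s : Λ} {l : List Λ}
    (hs : s ∉ l) :
    ∃ r : (tow X ((X (c s)).prod B) c l).X ⟶ (tow X B c (l ++ [s])).X,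
      IntM r (towOp X c (prodOp (X (c s)).X E) l) (towOp X c E (l ++ [s])) ∧
      ∀ G : (Λ → Lt κ) → W.H B.X, asm X c f ((X (c s)).prod B) l
        (fun J => ∑ a, W.map (fst (X (c s)).X B.X) ((f (c s)).t a) *
          W.map (snd (X (c s)).X B.X) (G (update J s a))) =
        W.map r (asm X c f B (l ++ [s]) G) := by
  induction l with
  | nil =>
    refine ⟨𝟙 _, IntM.id _, fun G => ?_⟩
    rw [W.map_id]
    rfl
  | cons t l ih =>
    rw [List.mem_cons, not_or] at hs
    obtain ⟨r, h', h⟩ := ih hs.2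
    refine ⟨idm (X (c t)).X r, IntM.idm _ h', fun G => ?_⟩
    have h0 : asm X c f B (t :: l ++ [s]) G =
        ∑ b, W.map (fst (X (c t)).X (tow X B c (l ++ [s])).X) ((f (c t)).t b) *
          W.map (snd (X (c t)).X (tow X B c (l ++ [s])).X)
            (asm X c f B (l ++ [s]) (upd t b G)) := rfl
    rw [asm_cons]
    refine Eq.trans ?_ (congrArg (W.map (idm (X (c t)).X r)) h0.symm)
    rw [map_sum]
    refine Finset.sum_congr rfl fun b _ => ?_
    have h1 : upd t b (fun J => ∑ a, W.map (fst (X (c s)).X B.X) ((f (c s)).t a) *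
          W.map (snd (X (c s)).X B.X) (G (update J s a))) =
        fun J => ∑ a, W.map (fst (X (c s)).X B.X) ((f (c s)).t a) *
          W.map (snd (X (c s)).X B.X) (upd t b G (update J s a)) := by
      funext J
      refine Finset.sum_congr rfl fun a _ => ?_
      rw [upd, update_comm (Ne.symm hs.1)]
    rw [h1, h]
    exact (map_idm _ r _ _).symm

/-- The last factor, in the other direction. -/
theorem asm_snocE' {B : DG W Γ} (E : W.H B.X →ₗ[W.K] W.H B.X) {s : Λ} {l : List Λ}
    (hs : s ∉ l) :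
    ∃ r : (tow X B c (l ++ [s])).X ⟶ (tow X ((X (c s)).prod B) c l).X,
      IntM r (towOp X c E (l ++ [s])) (towOp X c (prodOp (X (c s)).X E) l) ∧
      ∀ G : (Λ → Lt κ) → W.H B.X, W.map r (asm X c f ((X (c s)).prod B) l
        (fun J => ∑ a, W.map (fst (X (c s)).X B.X) ((f (c s)).t a) *
          W.map (snd (X (c s)).X B.X) (G (update J s a)))) =
        asm X c f B (l ++ [s]) G := by
  induction l with
  | nil =>
    refine ⟨𝟙 _, IntM.id _, fun G => ?_⟩
    rw [W.map_id]
    rfl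
  | cons t l ih =>
    rw [List.mem_cons, not_or] at hs
    obtain ⟨r, h', h⟩ := ih hs.2
    refine ⟨idm (X (c t)).X r, IntM.idm _ h', fun G => ?_⟩
    have h0 : asm X c f B (t :: l ++ [s]) G =
        ∑ b, W.map (fst (X (c t)).X (tow X B c (l ++ [s])).X) ((f (c t)).t b) *
          W.map (snd (X (c t)).X (tow X B c (l ++ [s])).X)
            (asm X c f B (l ++ [s]) (upd t b G)) := rfl
    rw [asm_cons]
    refine Eq.trans ?_ h0.symm
    rw [map_sum]
    refine Finset.sum_congr rfl fun b _ => ?_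
    have h1 : upd t b (fun J => ∑ a, W.map (fst (X (c s)).X B.X) ((f (c s)).t a) *
          W.map (snd (X (c s)).X B.X) (G (update J s a))) =
        fun J => ∑ a, W.map (fst (X (c s)).X B.X) ((f (c s)).t a) *
          W.map (snd (X (c s)).X B.X) (upd t b G (update J s a)) := by
      funext J
      refine Finset.sum_congr rfl fun a _ => ?_
      rw [upd, update_comm (Ne.symm hs.1)]
    refine (map_idm _ r _ _).trans ?_
    rw [h1, h]

/-- **Permutations of the factors.** -/
theorem asm_permE {Z : DG W Γ} (E : W.H Z.X →ₗ[W.K] W.H Z.X)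
    (hmid : ∀ i, transcendental W (X i).X ≤ W.gr (X i).X (X i).X.dim) {l l' : List Λ}
    (h : l.Perm l') (hl : l.Nodup) :
    ∃ (φ : (tow X Z c l).X ⟶ (tow X Z c l').X) (ε : W.K),
      IntM φ (towOp X c E l) (towOp X c E l') ∧ ∀ F,
      asm X c f Z l F = ε • W.map φ (asm X c f Z l' F) := by
  induction h with
  | nil => exact ⟨𝟙 _, 1, IntM.id _, fun F => by rw [W.map_id, one_smul]⟩
  | @cons s l l' _ ih =>
    obtain ⟨φ, ε, h', h⟩ := ih (List.nodup_cons.1 hl).2
    refine ⟨idm (X (c s)).X φ, ε, IntM.idm _ h', fun F => ?_⟩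
    rw [asm_cons, asm_cons, map_sum, Finset.smul_sum]
    refine Finset.sum_congr rfl fun a _ => ?_
    rw [h, map_smul, mul_smul_comm]
    congr 1
    exact (map_idm _ φ _ _).symm
  | swap s t l =>
    have hst : t ≠ s := by
      rintro rfl
      exact (List.nodup_cons.1 hl).1 List.mem_cons_self
    refine ⟨exm (X (c t)).X (X (c s)).X (tow X Z c l).X,
      (-1 : W.K) ^ ((X (c t)).X.dim * (X (c s)).X.dim), IntM.exm _ _ _, fun F => ?_⟩
    simp only [asm_cons, map_sum, Finset.mul_sum, Finset.smul_sum]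
    rw [Finset.sum_comm]
    refine Finset.sum_congr rfl fun a _ => Finset.sum_congr rfl fun b _ => ?_
    have h1 := map_exm (W := W) (X (c t)).X (X (c s)).X (tow X Z c l).X ((f (c s)).t a)
      ((f (c t)).t b) (asm X c f Z l (upd t b (upd s a F)))
    refine Eq.trans ?_ (congrArg (fun x => (-1 : W.K) ^ ((X (c t)).X.dim * (X (c s)).X.dim) • x)
      h1.symm)
    rw [upd_comm hst]
    have h2 : W.map (fst (X (c t)).X ((X (c s)).X.prod (tow X Z c l).X)) ((f (c t)).t b) *
        W.map (snd (X (c t)).X ((X (c s)).X.prod (tow X Z c l).X))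
          (W.map (fst (X (c s)).X (tow X Z c l).X) ((f (c s)).t a)) =
        (-1 : W.K) ^ ((X (c t)).X.dim * (X (c s)).X.dim) •
        (W.map (snd (X (c t)).X ((X (c s)).X.prod (tow X Z c l).X))
          (W.map (fst (X (c s)).X (tow X Z c l).X) ((f (c s)).t a)) *
          W.map (fst (X (c t)).X ((X (c s)).X.prod (tow X Z c l).X)) ((f (c t)).t b)) :=
      W.comm (W.map_mem _ (hmid _ ((f (c t)).t_mem b)))
        (W.map_mem _ (W.map_mem _ (hmid _ ((f (c s)).t_mem a))))
    change W.map (fst (X (c t)).X ((X (c s)).X.prod (tow X Z c l).X)) ((f (c t)).t b) *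
        W.map (snd (X (c t)).X ((X (c s)).X.prod (tow X Z c l).X))
          (W.map (fst (X (c s)).X (tow X Z c l).X) ((f (c s)).t a) *
            W.map (snd (X (c s)).X (tow X Z c l).X) (asm X c f Z l (upd s a (upd t b F)))) = _
    rw [map_mul, ← mul_assoc, h2, smul_mul_assoc, mul_assoc]
  | trans h1 _ ih1 ih2 =>
    obtain ⟨φ, ε, g, h⟩ := ih1 hl
    obtain ⟨φ', ε', g', h'⟩ := ih2 (h1.nodup_iff.1 hl)
    exact ⟨φ ≫ φ', ε * ε', g.comp g', fun F => by rw [h, h', map_smul, smul_smul, W.map_comp]⟩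

end Pool.Agent.X227.MS
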