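import Pool.Agent.X227.MS.Ts

/-!
# Pairs of systems of classes on products: finitely many products suffice
-/

open CategoryTheory AlgebraicGeometry Finset Function
open Pool.Agent.Y132.EP (DG tow idm map_idm exm map_exm)

set_option linter.unusedSectionVars false

universe u v w

namespace Pool.Agent.X227.MS

open Pool.Agent.H914 Pool.Agent.H914.VarClass Pool.Agent.H914.VarClass.Obj
  Pool.Agent.H914.WeilCohomology Pool.Agent.H281R3.HT Pool.Agent.W552 Pool.Agent.TH125.Gal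
  Pool.Agent.Y132.AF Pool.Agent.X227.DN
open Pool.Agent.Y132.AH (prj prj_same prj_ne prj_mem int_ind ext_prj)

variable {k : Type u} [Field k] {𝒱 : VarClass k} {ops : CycleOps 𝒱}
  {W : WeilCohomology.{u, 0} ops} {Γ : Type} [Group Γ]

section nd

variable {κ : ℕ} {ι : Type} {Λ : Type}
  [DecidableEq Λ] {χ : Γ →* W.Kˣ} {X : ι → DG W Γ} {c : Λ → ι} {f : ∀ i, SFrame κ (X i).X W}

/-- The sums of Tate functions with classes in `ℳ` have classes in `𝒩`. -/
def Nd (ℳ 𝒩 : ESys W) (χ : Γ →* W.Kˣ) (X : ι → DG W Γ) (c : Λ → ι)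
    (f : ∀ i, SFrame κ (X i).X W) (B : DG W Γ) (E : W.H B.X →ₗ[W.K] W.H B.X) (l : List Λ) :
    Prop :=
  ∀ F, Ts χ X c f B l F → asm X c f B l F ∈ ℳ.S (tow X B c l).X (towOp X c E l) →
    asm X c f B l F ∈ 𝒩.S (tow X B c l).X (towOp X c E l)

variable {ℳ 𝒩 : ESys W}

/-- **The recursion.** -/
theorem Nd.step (hG : ∀ i, IsGalois W χ (X i).X (X i).act)
    (hmid : ∀ i, transcendental W (X i).X ≤ W.gr (X i).X (X i).X.dim) {B : DG W Γ}
    {E : W.H B.X →ₗ[W.K] W.H B.X} {s : Λ}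
    {l : List Λ} (hs : s ∉ l) (h1 : Nd ℳ 𝒩 χ X c f B E l) (h2 : Nd ℳ 𝒩 χ X c f B E (l ++ [s])) :
    Nd ℳ 𝒩 χ X c f ((X (c s)).prod B) (prodOp (X (c s)).X E) l := by
  intro F hF hR
  have hdecJ : ∀ J, F J = (∑ n, W.map (fst (X (c s)).X B.X) ((f (c s)).s.bC n : W.H (X (c s)).X) *
      W.map (snd (X (c s)).X B.X) ((f (c s)).cC B.X n (F J))) +
      ∑ a, W.map (fst (X (c s)).X B.X) ((f (c s)).t a) *
        W.map (snd (X (c s)).X B.X) ((f (c s)).cT B.X a (F J)) := fun J =>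
    (f (c s)).expand_prod B.X (F J)
  have hdec : F = (∑ n, fun J => W.map (fst (X (c s)).X B.X) ((f (c s)).s.bC n : W.H (X (c s)).X) *
      W.map (snd (X (c s)).X B.X) ((f (c s)).cC B.X n (F J))) +
      fun J => ∑ a, W.map (fst (X (c s)).X B.X) ((f (c s)).t a) *
        W.map (snd (X (c s)).X B.X) ((f (c s)).cT B.X a (F J)) := by
    funext J
    rw [Pi.add_apply, Finset.sum_apply]
    exact hdecJ J
  have hasm : asm X c f ((X (c s)).prod B) l F = (∑ n, asm X c f ((X (c s)).prod B) l fun J =>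
      W.map (fst (X (c s)).X B.X) ((f (c s)).s.bC n : W.H (X (c s)).X) *
      W.map (snd (X (c s)).X B.X) ((f (c s)).cC B.X n (F J))) +
      asm X c f ((X (c s)).prod B) l fun J => ∑ a, W.map (fst (X (c s)).X B.X) ((f (c s)).t a) *
        W.map (snd (X (c s)).X B.X) ((f (c s)).cT B.X a (F J)) := by
    conv_lhs => rw [hdec]
    rw [asm_add, asm_sum]
  -- the algebraic components
  have hCM : ∀ n, asm X c f B l (fun J => (f (c s)).cC B.X n (F J)) ∈
      ℳ.S (tow X B c l).X (towOp X c E l) := by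
    intro n
    obtain ⟨w, v, g1, g2, h⟩ := asm_ctrE (A := X (c s)) (B := B) (c := c) (f := f) E l
    have h3 := h _ ((f (c s)).s.uC n).2 F
    rw [cC_eq]
    rw [← h3]
    exact ℳ.push_mem _ g2 (ℳ.mul_mem (algSpan_map _ ((f (c s)).s.uC n).2)
      (g1 _ ((f (c s)).s.uC n).2) hR)
  have hCN : ∀ n, asm X c f B l (fun J => (f (c s)).cC B.X n (F J)) ∈
      𝒩.S (tow X B c l).X (towOp X c E l) := fun n => h1 _ (hF.cC hG hmid n) (hCM n)
  have hsum : ∀ 𝒬 : ESys W, (∀ n, asm X c f B l (fun J => (f (c s)).cC B.X n (F J)) ∈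
      𝒬.S (tow X B c l).X (towOp X c E l)) → (∑ n, asm X c f ((X (c s)).prod B) l fun J =>
      W.map (fst (X (c s)).X B.X) ((f (c s)).s.bC n : W.H (X (c s)).X) *
      W.map (snd (X (c s)).X B.X) ((f (c s)).cC B.X n (F J))) ∈
        𝒬.S (tow X ((X (c s)).prod B) c l).X (towOp X c (prodOp (X (c s)).X E) l) := by
    intro 𝒬 h𝒬
    refine Submodule.sum_mem _ fun n _ => ?_
    obtain ⟨w, v, g1, g2, h⟩ := asm_fstE (A := X (c s)) (B := B) (c := c) (f := f) E l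
    rw [h _ ((f (c s)).s.bC n).2 fun J => (f (c s)).cC B.X n (F J)]
    exact 𝒬.mul_mem (algSpan_map _ ((f (c s)).s.bC n).2) (g1 _ ((f (c s)).s.bC n).2)
      (𝒬.map_mem _ g2 (h𝒬 n))
  -- the transcendental components
  have hindep : ∀ J b, F (update J s b) = F J := by
    intro J b
    refine hF.dep _ _ fun t ht => ?_
    rw [update_of_ne]
    rintro rfl
    exact hs ht
  have e0 : (fun J => ∑ a, W.map (fst (X (c s)).X B.X) ((f (c s)).t a) *
      W.map (snd (X (c s)).X B.X) ((f (c s)).cT B.X a (F J))) = fun J => ∑ a,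
      W.map (fst (X (c s)).X B.X) ((f (c s)).t a) * W.map (snd (X (c s)).X B.X)
        ((fun J => (f (c s)).cT B.X (J s) (F J)) (update J s a)) := by
    funext J
    refine Finset.sum_congr rfl fun a _ => ?_
    beta_reduce
    rw [update_self, hindep]
  have hTM : asm X c f B (l ++ [s]) (fun J => (f (c s)).cT B.X (J s) (F J)) ∈
      ℳ.S (tow X B c (l ++ [s])).X (towOp X c E (l ++ [s])) := by
    obtain ⟨r, g, h⟩ := asm_snocE' (X := X) (B := B) (c := c) (f := f) E hs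
    rw [← h fun J => (f (c s)).cT B.X (J s) (F J)]
    refine ℳ.map_mem _ g ?_
    rw [← (congrArg (asm X c f ((X (c s)).prod B) l) e0), ← sub_eq_of_eq_add' hasm]
    exact Submodule.sub_mem _ hR (hsum ℳ hCM)
  have hTN := h2 _ (hF.cT hG hmid hs) hTM
  rw [hasm]
  refine Submodule.add_mem _ (hsum 𝒩 hCN) ?_
  obtain ⟨r, g, h⟩ := asm_snocE (X := X) (B := B) (c := c) (f := f) E hs
  rw [(congrArg (asm X c f ((X (c s)).prod B) l) e0).trans
    (h fun J => (f (c s)).cT B.X (J s) (F J))]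
  exact 𝒩.map_mem _ g hTN

/-- The reduction to functions with values in the cohomology of the base. -/
theorem Nd.tow (hG : ∀ i, IsGalois W χ (X i).X (X i).act)
    (hmid : ∀ i, transcendental W (X i).X ≤ W.gr (X i).X (X i).X.dim) {Z : DG W Γ}
    {E : W.H Z.X →ₗ[W.K] W.H Z.X} (l₂ : List Λ) : ∀ l₁ : List Λ, (l₁ ++ l₂).Nodup →
      (∀ l', l'.Sublist l₂ → Nd ℳ 𝒩 χ X c f Z E (l₁ ++ l')) →
        Nd ℳ 𝒩 χ X c f (tow X Z c l₂) (towOp X c E l₂) l₁ := by
  induction l₂ with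
  | nil =>
    intro l₁ _ h
    have h1 := h [] (List.Sublist.refl _)
    rwa [List.append_nil] at h1
  | cons s l₂ ih =>
    intro l₁ hnd h
    have hs : s ∉ l₁ := by
      intro hs
      rw [List.nodup_append] at hnd
      exact hnd.2.2 s hs s List.mem_cons_self rfl
    have hnd1 : ((l₁ ++ [s]) ++ l₂).Nodup := by
      rw [List.append_assoc]
      exact hnd
    have hnd2 : (l₁ ++ l₂).Nodup := by
      refine hnd.sublist ?_
      exact List.Sublist.append_left (List.sublist_cons_self s l₂) l₁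
    refine Nd.step hG hmid hs (ih l₁ hnd2 fun l' hl' => h l' (hl'.cons s)) ?_
    refine ih (l₁ ++ [s]) hnd1 fun l' hl' => ?_
    rw [List.append_assoc]
    exact h _ (hl'.cons_cons s)

/-- All components of the class `y` are Tate classes. -/
def TateSum (χ : Γ →* W.Kˣ) (B : DG W Γ) (y : W.H B.X) : Prop :=
  ∀ m, prj (W.isInternal B.X) m y = 0 ∨ ∃ j, m = 2 * j ∧ ∃ Δ : Subgroup Γ, Δ.FiniteIndex ∧
    ∀ g ∈ Δ, B.act g (prj (W.isInternal B.X) m y) =
      (χ g : W.K) ^ j • prj (W.isInternal B.X) m y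

theorem Nd.final {B : DG W Γ} {E : W.H B.X →ₗ[W.K] W.H B.X}
    (h : Nd ℳ 𝒩 χ X c f B E []) (hB : ∀ y ∈ ℳ.S B.X E, TateSum χ B y) :
    ∀ y ∈ ℳ.S B.X E, y ∈ 𝒩.S B.X E := by
  intro y hy
  refine h (fun _ => y) (fun m => ?_) hy
  rcases hB y hy m with h1 | ⟨j, rfl, Δ, hΔ, hact⟩
  · exact Or.inl (funext fun J => h1)
  · exact Or.inr ⟨j, fun _ _ _ => rfl, fun _ => prj_mem _ _ _, by simp [dsum], Δ, hΔ,
      fun g hg => funext fun J => hact g hg⟩

theorem sys_of_sub (hG : ∀ i, IsGalois W χ (X i).X (X i).act)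
    (hmid : ∀ i, transcendental W (X i).X ≤ W.gr (X i).X (X i).X.dim) {Z : DG W Γ}
    {E : W.H Z.X →ₗ[W.K] W.H Z.X} {l : List Λ} (hl : l.Nodup)
    (hfix : ∀ y ∈ ℳ.S (tow X Z c l).X (towOp X c E l), TateSum χ (tow X Z c l) y)
    (h : ∀ l', l'.Sublist l → Nd ℳ 𝒩 χ X c f Z E l') :
    ∀ y ∈ ℳ.S (tow X Z c l).X (towOp X c E l), y ∈ 𝒩.S (tow X Z c l).X (towOp X c E l) :=
  Nd.final (Nd.tow hG hmid l [] hl fun l' hl' => h l' hl') hfix

/-- The contraction. -/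
theorem contract_mem (hmid : ∀ i, transcendental W (X i).X ≤ W.gr (X i).X (X i).X.dim)
    (hDX : ∀ i, HomEqNum W (X i).X) {Z : DG W Γ} {E : W.H Z.X →ₗ[W.K] W.H Z.X} {l : List Λ}
    (hl : l.Nodup) {p q : Λ} (hp : p ∈ l) (hq : q ∈ l) (hpq : p ≠ q) (hc : c p = c q)
    {F : (Λ → Lt κ) → W.H Z.X} (hF : Ts χ X c f Z l F)
    (hR : asm X c f Z l F ∈ ℳ.S (tow X Z c l).X (towOp X c E l)) :
    asm X c f Z ((l.erase p).erase q) (cw p q F) ∈
      ℳ.S (tow X Z c ((l.erase p).erase q)).X (towOp X c E ((l.erase p).erase q)) := by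
  have hperm := perm_two hp hq hpq
  have hnd : (p :: q :: (l.erase p).erase q).Nodup := hperm.nodup_iff.1 hl
  obtain ⟨φ, ε, g, h5⟩ := asm_permE (X := X) (c := c) (f := f) (Z := Z) E hmid hperm.symm hnd
  have h6 : asm X c f Z (p :: q :: (l.erase p).erase q) F ∈
      ℳ.S (tow X Z c (p :: q :: (l.erase p).erase q)).X
        (towOp X c E (p :: q :: (l.erase p).erase q)) := by
    rw [h5]
    exact Submodule.smul_mem _ _ (ℳ.map_mem _ g hR)
  have h7 := ℳ.push_mem (snd (X (c p)).X ((X (c q)).X.prod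
      (Pool.Agent.Y132.EP.tow X Z c ((l.erase p).erase q)).X) ≫
        snd (X (c q)).X (Pool.Agent.Y132.EP.tow X Z c ((l.erase p).erase q)).X)
    ((IntP.snd _ _).comp (IntP.snd _ _))
    (ℳ.mul_mem (algSpan_map (Obj.lift (fst (X (c p)).X ((X (c q)).X.prod
      (Pool.Agent.Y132.EP.tow X Z c ((l.erase p).erase q)).X)) (snd (X (c p)).X ((X (c q)).X.prod
        (Pool.Agent.Y132.EP.tow X Z c ((l.erase p).erase q)).X) ≫ fst (X (c q)).X
          (Pool.Agent.Y132.EP.tow X Z c ((l.erase p).erase q)).X))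
            (dOm_alg' (f := f) hc (hDX _) (hmid _))) (Comm.pair _ _ _ _) h6)
  have h8 := asm_contract (X := X) (c := c) (f := f) hmid (Z := Z) (l := (l.erase p).erase q)
    hpq hc (F := F) (fun J hJ => hF.off hl hp hJ)
  have h9 := h8.symm.trans rfl ▸ h7
  have h11 := Submodule.smul_mem _ ((-1 : W.K) ^ ((X (c q)).X.dim * (X (c p)).X.dim)) h9
  rw [smul_smul, ← mul_pow, neg_one_mul, neg_neg, one_pow, one_smul] at h11
  exact h11

/-- The insertion. -/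
theorem insert_mem (hmid : ∀ i, transcendental W (X i).X ≤ W.gr (X i).X (X i).X.dim)
    (hDX : ∀ i, HomEqNum W (X i).X) {Z : DG W Γ} {E : W.H Z.X →ₗ[W.K] W.H Z.X} {l : List Λ}
    (hl : l.Nodup) {p q : Λ} (hp : p ∈ l) (hq : q ∈ l) (hpq : p ≠ q) (hc : c p = c q)
    {y : (Λ → Lt κ) → W.H Z.X} (h1 : ∀ a, upd p a y = y) (h2 : ∀ a, upd q a y = y)
    (hR : asm X c f Z ((l.erase p).erase q) y ∈
      ℳ.S (tow X Z c ((l.erase p).erase q)).X (towOp X c E ((l.erase p).erase q))) :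
    asm X c f Z l (iw f c p q y) ∈ ℳ.S (tow X Z c l).X (towOp X c E l) := by
  have hperm := perm_two hp hq hpq
  obtain ⟨φ, ε, g, h5⟩ := asm_permE (X := X) (c := c) (f := f) (Z := Z) E hmid hperm hl
  rw [h5]
  refine Submodule.smul_mem _ _ (ℳ.map_mem _ g ?_)
  have h6 := asm_pair (X := X) (c := c) (f := f) (Z := Z) (l := (l.erase p).erase q) hpq
    (F' := y) h1 h2
  change asm X c f Z (p :: q :: (l.erase p).erase q) (fun J =>
    (omz (f (c p)).g (J p) (J q) : W.K) • y J) ∈ _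
  rw [h6]
  exact ℳ.mul_mem (algSpan_map _ (dOm_alg' (f := f) hc (hDX _) (hmid _))) (Comm.pair _ _ _ _)
    (ℳ.map_mem _ ((IntM.snd _ _).comp (IntM.snd _ _)) hR)

end nd

section tr

variable {κ : ℕ} {ι : Type} {Λ : Type} [Fintype Λ]
  [DecidableEq Λ] {χ : Γ →* W.Kˣ} {X : ι → DG W Γ} {c : Λ → ι} {f : ∀ i, SFrame κ (X i).X W}
  {ℳ 𝒩 : ESys W}

/-- The sums of Tate functions with classes in `ℳ`. -/
def TsV (ℳ : ESys W) (χ : Γ →* W.Kˣ) (X : ι → DG W Γ) (c : Λ → ι)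
    (f : ∀ i, SFrame κ (X i).X W) (B : DG W Γ) (E : W.H B.X →ₗ[W.K] W.H B.X) (l : List Λ) :
    Submodule W.K ((Λ → Lt κ) → W.H B.X) where
  carrier := {F | Ts χ X c f B l F ∧ asm X c f B l F ∈ ℳ.S (tow X B c l).X (towOp X c E l)}
  zero_mem' := ⟨Ts.zero, by rw [asm_zero]; exact Submodule.zero_mem _⟩
  add_mem' := by
    rintro F F' ⟨h1, h2⟩ ⟨h3, h4⟩
    exact ⟨h1.add h3, by rw [asm_add]; exact Submodule.add_mem _ h2 h4⟩
  smul_mem' := by
    rintro x F ⟨h1, h2⟩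
    exact ⟨h1.smul x, by rw [asm_smul]; exact Submodule.smul_mem _ _ h2⟩

/-- **Traceless functions.** -/
theorem exists_trE (hG : ∀ i, IsGalois W χ (X i).X (X i).act)
    (hmid : ∀ i, transcendental W (X i).X ≤ W.gr (X i).X (X i).X.dim)
    (hDX : ∀ i, HomEqNum W (X i).X) {Z : DG W Γ} {E : W.H Z.X →ₗ[W.K] W.H Z.X} {l : List Λ}
    (hl : l.Nodup)
    (hS : ∀ p ∈ l, ∀ q ∈ l, p ≠ q → Nd ℳ 𝒩 χ X c f Z E ((l.erase p).erase q))
    {F : (Λ → Lt κ) → W.H Z.X} (hF : Ts χ X c f Z l F)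
    (hM : asm X c f Z l F ∈ ℳ.S (tow X Z c l).X (towOp X c E l))
    (hna : asm X c f Z l F ∉ 𝒩.S (tow X Z c l).X (towOp X c E l)) :
    ∃ (m j : ℕ) (F' : (Λ → Lt κ) → W.H Z.X), IsT χ X c f Z l m j F' ∧ F' ≠ 0 ∧
      ∀ p ∈ l, ∀ q ∈ l, p ≠ q → c p = c q → ∀ J, ctw p q F' J = 0 := by
  classical
  let S : Finset (Λ × Λ) := univ.filter fun p => p.1 ∈ l ∧ p.2 ∈ l ∧ p.1 ≠ p.2 ∧ c p.1 = c p.2
  have hSm : ∀ p, p ∈ S ↔ p.1 ∈ l ∧ p.2 ∈ l ∧ p.1 ≠ p.2 ∧ c p.1 = c p.2 := fun p => by simp [S]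
  let V := TsV ℳ χ X c f Z E l
  have hV : ∀ F, F ∈ V ↔ Ts χ X c f Z l F ∧
      asm X c f Z l F ∈ ℳ.S (tow X Z c l).X (towOp X c E l) := fun F => Iff.rfl
  let Om : ((Λ → Lt κ) → W.H Z.X) → ((Λ → Lt κ) → W.H Z.X) := fun F =>
    ∑ p ∈ S, iw f c p.1 p.2 (cw p.1 p.2 F)
  have hOm : ∀ F ∈ V, Om F ∈ V := by
    intro F hF'
    obtain ⟨hF1, hF2⟩ := (hV F).1 hF'
    refine Submodule.sum_mem _ fun p hp => ?_
    obtain ⟨h1, h2, h3, h4⟩ := (hSm p).1 hp
    exact ⟨Ts.insert hG h1 h2 h3 h4 hl (hF1.contract hG h1 h2 h3 h4 hl),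
      insert_mem hmid hDX hl h1 h2 h3 h4 (fun a => cw_upd1 _ a) (fun a => cw_upd2 h3 _ a)
        (contract_mem hmid hDX hl h1 h2 h3 h4 hF1 hF2)⟩
  have hadd : ∀ F F', Om (F + F') = Om F + Om F' := by
    intro F F'
    rw [← Finset.sum_add_distrib]
    exact Finset.sum_congr rfl fun p _ => by rw [cw_add, iw_add]
  have hsmul : ∀ (x : W.K) F, Om (x • F) = x • Om F := by
    intro x F
    rw [Finset.smul_sum]
    exact Finset.sum_congr rfl fun p _ => by rw [cw_smul, iw_smul]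
  let L : V →ₗ[W.K] V :=
    { toFun := fun F => ⟨Om F.1, hOm F.1 F.2⟩
      map_add' := fun F F' => Subtype.ext (hadd _ _)
      map_smul' := fun x F => Subtype.ext (hsmul _ _) }
  have hns : ¬Function.Surjective L := by
    intro hsurj
    obtain ⟨F₁, hF₁⟩ := hsurj ⟨F, hF, hM⟩
    apply hna
    have h1 : F = Om F₁.1 := (congrArg Subtype.val hF₁).symm
    obtain ⟨hF1, hF2⟩ := (hV _).1 F₁.2
    rw [h1, asm_sum]
    refine Submodule.sum_mem _ fun p hp => ?_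
    obtain ⟨h2, h3, h4, h5⟩ := (hSm p).1 hp
    exact insert_mem hmid hDX hl h2 h3 h4 h5 (fun a => cw_upd1 _ a) (fun a => cw_upd2 h4 _ a)
      (hS _ h2 _ h3 h4 _ (hF1.contract hG h2 h3 h4 h5 hl)
        (contract_mem hmid hDX hl h2 h3 h4 h5 hF1 hF2))
  have hni : ¬Function.Injective L := fun h => hns (LinearMap.injective_iff_surjective.1 h)
  obtain ⟨F₀, h0, hne⟩ : ∃ F₀ : V, L F₀ = 0 ∧ F₀ ≠ 0 := by
    by_contra hcon
    push Not at hcon
    exact hni ((injective_iff_map_eq_zero L).2 hcon)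
  have htr : ∀ p ∈ l, ∀ q ∈ l, p ≠ q → c p = c q → ∀ J, ctw p q F₀.1 J = 0 := by
    intro p hp q hq hpq hc
    let _ : Module ℚ (W.H Z.X) := Module.compHom (W.H Z.X) (algebraMap ℚ W.K)
    refine omega_zero (S := S) (g := fun s => (f (c s)).g) (F := F₀.1)
      (fun p hp => ((hSm p).1 hp).2.2.1) (fun p hp J hJ => ?_) (fun J => ?_) (p, q)
      ((hSm _).2 ⟨hp, hq, hpq, hc⟩)
    · exact ((hV _).1 F₀.2).1.off hl ((hSm p).1 hp).1 hJ
    · have h1 := congrFun (congrArg Subtype.val h0) J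
      have h2 : (L F₀ : (Λ → Lt κ) → W.H Z.X) J = ∑ p ∈ S,
          iw f c p.1 p.2 (cw p.1 p.2 F₀.1) J := Finset.sum_apply _ _ _
      rw [h2] at h1
      refine Eq.trans (Finset.sum_congr rfl fun p _ => ?_) h1
      rw [iw, Int.cast_smul_eq_zsmul]
      rfl
  obtain ⟨m, hm⟩ : ∃ m, gp m F₀.1 ≠ 0 := by
    by_contra hcon
    push Not at hcon
    exact hne (Subtype.ext (gp_ext fun m => by rw [hcon m]; exact (gp_zero m).symm))
  rcases ((hV _).1 F₀.2).1 m with h1 | ⟨j, h1⟩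
  · exact absurd h1 hm
  · refine ⟨m, j, gp m F₀.1, h1, hm, fun p hp q hq hpq hc J => ?_⟩
    have h2 := congrFun (gp_cw p q m F₀.1) J
    have h3 : cw p q F₀.1 J = 0 := htr p hp q hq hpq hc J
    have h4 : cw p q (gp m F₀.1) J = 0 := by
      rw [← h2]
      change prj _ m (cw p q F₀.1 J) = 0
      rw [h3, map_zero]
    exact h4

end tr

end Pool.Agent.X227.MS
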