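import Pool.Agent.X227.MS.Sys

/-!
# Sums of Tate functions
-/

open CategoryTheory AlgebraicGeometry Finset Function
open Pool.Agent.Y132.EP (DG tow idm map_idm exm map_exm)

set_option linter.unusedSectionVars false

universe u v w

namespace Pool.Agent.X227.MS

open Pool.Agent.H914 Pool.Agent.H914.VarClass Pool.Agent.H914.VarClass.Obj
  Pool.Agent.H914.WeilCohomology Pool.Agent.H281R3.HT Pool.Agent.W552 Pool.Agent.TH125.Gal
  Pool.Agent.Y132.AF Pool.Agent.X227.DN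
open Pool.Agent.Y132.AH (prj prj_same prj_ne prj_mem int_ind ext_prj)

variable {k : Type u} [Field k] {𝒱 : VarClass k} {ops : CycleOps 𝒱}
  {W : WeilCohomology.{u, 0} ops} {Γ : Type} [Group Γ] {κ : ℕ} {ι : Type} {Λ : Type}
  [DecidableEq Λ] {χ : Γ →* W.Kˣ} {X : ι → DG W Γ} {c : Λ → ι} {f : ∀ i, SFrame κ (X i).X W}

/-- The component of degree `m`. -/
noncomputable def gp {Y : 𝒱.Obj} (m : ℕ) (F : (Λ → Lt κ) → W.H Y) : (Λ → Lt κ) → W.H Y :=
  fun J => prj (W.isInternal Y) m (F J)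

theorem gp_add {Y : 𝒱.Obj} (m : ℕ) (F F' : (Λ → Lt κ) → W.H Y) :
    gp m (F + F') = gp m F + gp m F' := funext fun _ => map_add _ _ _

theorem gp_smul {Y : 𝒱.Obj} (m : ℕ) (r : W.K) (F : (Λ → Lt κ) → W.H Y) :
    gp m (r • F) = r • gp m F := funext fun _ => map_smul _ _ _

theorem gp_zero {Y : 𝒱.Obj} (m : ℕ) : gp m (0 : (Λ → Lt κ) → W.H Y) = 0 :=
  funext fun _ => map_zero _

theorem gp_ext {Y : 𝒱.Obj} {F F' : (Λ → Lt κ) → W.H Y} (h : ∀ m, gp m F = gp m F') : F = F' :=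
  funext fun J => ext_prj (W.isInternal Y) fun m => congrFun (h m) J

theorem gp_gp {Y : 𝒱.Obj} {m : ℕ} {F : (Λ → Lt κ) → W.H Y} (h : ∀ J, F J ∈ W.gr Y m) :
    gp m F = F := funext fun J => prj_same _ (h J)

theorem prj_cC {A Z : 𝒱.Obj} (f : SFrame κ A W) (hmid : transcendental W A ≤ W.gr A A.dim)
    (n : Fin f.s.NC) (m : ℕ) (y : W.H (A.prod Z)) :
    prj (W.isInternal Z) m (f.cC Z n y) =
      f.cC Z n (prj (W.isInternal (A.prod Z)) (m + 2 * f.s.jC n) y) := by
  refine int_ind (p := fun y => prj (W.isInternal Z) m (f.cC Z n y) =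
    f.cC Z n (prj (W.isInternal (A.prod Z)) (m + 2 * f.s.jC n) y)) (W.isInternal (A.prod Z)) y
    (fun l y hy => ?_) (by simp) fun x y hx hy => by rw [map_add, map_add, hx, hy, map_add, map_add]
  have h1 := cC_gr f hmid hy n
  by_cases hl : l = m + 2 * f.s.jC n
  · subst hl
    rw [prj_same _ hy, prj_same]
    have h2 := h1.1 (by omega)
    rwa [Nat.add_sub_cancel] at h2
  · rw [prj_ne _ hl hy, map_zero]
    by_cases h3 : 2 * f.s.jC n ≤ l
    · exact prj_ne _ (by omega) (h1.1 h3)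
    · rw [h1.2 h3, map_zero]

theorem prj_cT {A Z : 𝒱.Obj} (f : SFrame κ A W) (hmid : transcendental W A ≤ W.gr A A.dim)
    (b : Lt κ) (m : ℕ) (y : W.H (A.prod Z)) :
    prj (W.isInternal Z) m (f.cT Z b y) =
      f.cT Z b (prj (W.isInternal (A.prod Z)) (m + A.dim) y) := by
  refine int_ind (p := fun y => prj (W.isInternal Z) m (f.cT Z b y) =
    f.cT Z b (prj (W.isInternal (A.prod Z)) (m + A.dim) y)) (W.isInternal (A.prod Z)) y
    (fun l y hy => ?_) (by simp) fun x y hx hy => by rw [map_add, map_add, hx, hy, map_add, map_add]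
  have h1 := cT_gr f hmid hy b
  by_cases hl : l = m + A.dim
  · subst hl
    rw [prj_same _ hy, prj_same]
    have h2 := h1.1 (by omega)
    rwa [Nat.add_sub_cancel] at h2
  · rw [prj_ne _ hl hy, map_zero]
    by_cases h3 : A.dim ≤ l
    · exact prj_ne _ (by omega) (h1.1 h3)
    · rw [h1.2 h3, map_zero]

/-- The contraction with algebraic classes. -/
theorem isT_cC (hG : ∀ i, IsGalois W χ (X i).X (X i).act)
    (hmid : ∀ i, transcendental W (X i).X ≤ W.gr (X i).X (X i).X.dim) {B : DG W Γ} {s : Λ}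
    {l : List Λ} {m j : ℕ} {F : (Λ → Lt κ) → W.H ((X (c s)).prod B).X}
    (hF : IsT χ X c f ((X (c s)).prod B) l m j F) (n : Fin (f (c s)).s.NC)
    (hn : 2 * (f (c s)).s.jC n ≤ m) :
    IsT χ X c f B l (m - 2 * (f (c s)).s.jC n) (j - (f (c s)).s.jC n)
      (fun J => (f (c s)).cC B.X n (F J)) := by
  obtain ⟨Δ, hΔ, hact⟩ := hF.act
  obtain ⟨Δ', hΔ', hfix⟩ := exists_fix (hG (c s)) (f (c s)).s
  have hX : ∀ g, ∀ t ∈ transcendental W (X (c s)).X, (X (c s)).act g t ∈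
    transcendental W (X (c s)).X := fun g t ht => act_trans (hG (c s)) g ht
  have hactC : ∀ g ∈ Δ', ∀ n y, (f (c s)).cC B.X n (((X (c s)).prod B).act g y) =
      (χ g : W.K) ^ (f (c s)).s.jC n • B.act g ((f (c s)).cC B.X n y) := by
    intro g hg n y
    rw [act_coords (f (c s)) (hX g) (hfix g hg) y]
    exact cC_sum _ _ _ n
  refine ⟨fun J J' hJ => by rw [hF.dep J J' hJ],
    fun J => (cC_gr (f (c s)) (hmid (c s)) (hF.gr J) n).1 hn, ?_,
    Δ ⊓ Δ', inferInstance, fun g hg => ?_⟩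
  · have := hF.deg
    omega
  · have hχ : (χ g : W.K) ≠ 0 := Units.ne_zero _
    have e1 : (fun J => B.act g ((f (c s)).cC B.X n (F J))) = fun J =>
        (((χ g : W.K) ^ (f (c s)).s.jC n)⁻¹ • (f (c s)).cC B.X n)
          (((X (c s)).prod B).act g (F J)) := by
      funext J
      rw [LinearMap.smul_apply, hactC g hg.2, smul_smul,
        inv_mul_cancel₀ (pow_ne_zero _ hχ), one_smul]
    rw [e1]
    have e2 := SL_lin (Nm X c f g) (l := l) (fun _ => ((χ g : W.K) ^ (f (c s)).s.jC n)⁻¹ •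
      (f (c s)).cC B.X n) (fun _ _ _ _ => rfl) fun J => ((X (c s)).prod B).act g (F J)
    rw [e2, hact g hg.1]
    funext J
    rw [Pi.smul_apply, Pi.smul_apply, LinearMap.smul_apply, map_smul, smul_smul]
    congr 1
    have e3 : j = (j - (f (c s)).s.jC n) + (f (c s)).s.jC n := by
      have := hF.deg
      omega
    conv_lhs => rw [e3, pow_add]
    rw [mul_comm ((χ g : W.K) ^ (j - (f (c s)).s.jC n)), ← mul_assoc,
      inv_mul_cancel₀ (pow_ne_zero _ hχ), one_mul]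

/-- The transcendental coordinates. -/
theorem isT_cT (hG : ∀ i, IsGalois W χ (X i).X (X i).act)
    (hmid : ∀ i, transcendental W (X i).X ≤ W.gr (X i).X (X i).X.dim) {B : DG W Γ} {s : Λ}
    {l : List Λ} (hs : s ∉ l) {m j : ℕ} {F : (Λ → Lt κ) → W.H ((X (c s)).prod B).X}
    (hF : IsT χ X c f ((X (c s)).prod B) l m j F) (hn : (X (c s)).X.dim ≤ m) :
    IsT χ X c f B (l ++ [s]) (m - (X (c s)).X.dim) j
      (fun J => (f (c s)).cT B.X (J s) (F J)) := by
  obtain ⟨Δ, hΔ, hact⟩ := hF.act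
  obtain ⟨Δ', hΔ', hfix⟩ := exists_fix (hG (c s)) (f (c s)).s
  have hX : ∀ g, ∀ t ∈ transcendental W (X (c s)).X, (X (c s)).act g t ∈
    transcendental W (X (c s)).X := fun g t ht => act_trans (hG (c s)) g ht
  have hactT : ∀ g ∈ Δ', ∀ b y, (f (c s)).cT B.X b (((X (c s)).prod B).act g y) =
      ∑ a, bil W (X (c s)).X ((f (c s)).u b) ((X (c s)).act g ((f (c s)).t a)) •
        B.act g ((f (c s)).cT B.X a y) := by
    intro g hg b y
    by_cases hb : (b.2 : ℕ) < (f (c s)).g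
    · rw [act_coords (f (c s)) (hX g) (hfix g hg) y]
      exact cT_sum _ _ _ b hb
    · rw [cT_off _ (not_lt.1 hb), (f (c s)).u_off (not_lt.1 hb)]
      simp
  have hindep : ∀ J b, F (update J s b) = F J := by
    intro J b
    refine hF.dep _ _ fun t ht => ?_
    rw [update_of_ne]
    rintro rfl
    exact hs ht
  refine ⟨fun J J' hJ => ?_,
    fun J => (cT_gr (f (c s)) (hmid (c s)) (hF.gr J) (J s)).1 hn, ?_,
    Δ ⊓ Δ', inferInstance, fun g hg => ?_⟩
  · rw [hF.dep J J' fun t ht => hJ t (List.mem_append_left _ ht),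
      hJ s (List.mem_append_right _ (List.mem_singleton.2 rfl))]
  · have h3 := hF.deg
    have h4 : dsum X c (l ++ [s]) = dsum X c l + (X (c s)).X.dim := by
      simp [dsum]
    omega
  · rw [SL_append]
    have e1 : SL (Nm X c f g) [s] (fun J => B.act g ((f (c s)).cT B.X (J s) (F J))) =
        fun J => (f (c s)).cT B.X (J s) (((X (c s)).prod B).act g (F J)) := by
      funext J
      rw [hactT g hg.2]
      simp only [SL, Sp, update_self, hindep]
      rfl
    rw [e1]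
    have e2 := SL_lin (Nm X c f g) (l := l) (fun J => (f (c s)).cT B.X (J s))
      (fun t ht b J => by
        rw [update_of_ne]
        rintro rfl
        exact hs ht) fun J => ((X (c s)).prod B).act g (F J)
    rw [e2, hact g hg.1]
    funext J
    rw [Pi.smul_apply, Pi.smul_apply, map_smul]

/-- All components of `F` are Tate functions. -/
def Ts (χ : Γ →* W.Kˣ) (X : ι → DG W Γ) (c : Λ → ι) (f : ∀ i, SFrame κ (X i).X W)
    (B : DG W Γ) (l : List Λ) (F : (Λ → Lt κ) → W.H B.X) : Prop :=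
  ∀ m, gp m F = 0 ∨ ∃ j, IsT χ X c f B l m j (gp m F)

theorem Ts.zero {B : DG W Γ} {l : List Λ} : Ts χ X c f B l 0 := fun m => Or.inl (gp_zero m)

theorem isT_add {B : DG W Γ} {l : List Λ} {m j : ℕ} {F F' : (Λ → Lt κ) → W.H B.X}
    (h : IsT χ X c f B l m j F) (h' : IsT χ X c f B l m j F') :
    IsT χ X c f B l m j (F + F') := by
  obtain ⟨d1, g1, hdeg, Δ, hΔ, a1⟩ := h
  obtain ⟨d2, g2, -, Δ', hΔ', a2⟩ := h'
  refine ⟨fun J J' hJ => ?_, fun J => Submodule.add_mem _ (g1 J) (g2 J), hdeg, Δ ⊓ Δ',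
    inferInstance, fun g hg => ?_⟩
  · rw [Pi.add_apply, Pi.add_apply, d1 J J' hJ, d2 J J' hJ]
  · have h1 : (fun J => B.act g ((F + F') J)) =
        (fun J => B.act g (F J)) + fun J => B.act g (F' J) := funext fun J => map_add _ _ _
    rw [h1, SL_add, a1 g hg.1, a2 g hg.2, smul_add]

theorem isT_smul {B : DG W Γ} {l : List Λ} {m j : ℕ} {F : (Λ → Lt κ) → W.H B.X} (x : W.K)
    (h : IsT χ X c f B l m j F) : IsT χ X c f B l m j (x • F) := by
  obtain ⟨d1, g1, hdeg, Δ, hΔ, a1⟩ := h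
  refine ⟨fun J J' hJ => ?_, fun J => Submodule.smul_mem _ _ (g1 J), hdeg, Δ, hΔ,
    fun g hg => ?_⟩
  · rw [Pi.smul_apply, Pi.smul_apply, d1 J J' hJ]
  · have h1 : (fun J => B.act g ((x • F) J)) = x • fun J => B.act g (F J) :=
      funext fun J => map_smul _ _ _
    rw [h1, SL_smul, a1 g hg, smul_comm]

theorem Ts.add {B : DG W Γ} {l : List Λ} {F F' : (Λ → Lt κ) → W.H B.X}
    (h : Ts χ X c f B l F) (h' : Ts χ X c f B l F') : Ts χ X c f B l (F + F') := by
  intro m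
  rw [gp_add]
  rcases h m with h1 | ⟨j, h1⟩
  · rw [h1, zero_add]
    exact h' m
  · rcases h' m with h2 | ⟨j', h2⟩
    · rw [h2, add_zero]
      exact Or.inr ⟨j, h1⟩
    · obtain rfl : j = j' := by
        have e1 := h1.deg
        have e2 := h2.deg
        omega
      exact Or.inr ⟨j, isT_add h1 h2⟩

theorem Ts.smul {B : DG W Γ} {l : List Λ} {F : (Λ → Lt κ) → W.H B.X} (x : W.K)
    (h : Ts χ X c f B l F) : Ts χ X c f B l (x • F) := by
  intro m
  rw [gp_smul]
  rcases h m with h1 | ⟨j, h1⟩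
  · exact Or.inl (by rw [h1, smul_zero])
  · exact Or.inr ⟨j, isT_smul x h1⟩

theorem Ts.dep {B : DG W Γ} {l : List Λ} {F : (Λ → Lt κ) → W.H B.X}
    (h : Ts χ X c f B l F) : Dep l F := by
  intro J J' hJ
  refine ext_prj (W.isInternal B.X) fun m => ?_
  change gp m F J = gp m F J'
  rcases h m with h1 | ⟨j, h1⟩
  · rw [h1]
    rfl
  · exact h1.dep J J' hJ

theorem Ts.off {B : DG W Γ} {l : List Λ} (hl : l.Nodup) {F : (Λ → Lt κ) → W.H B.X}
    (hF : Ts χ X c f B l F) {s : Λ} (hs : s ∈ l) {J : Λ → Lt κ}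
    (hJ : (f (c s)).g ≤ ((J s).2 : ℕ)) : F J = 0 := by
  refine ext_prj (W.isInternal B.X) fun m => ?_
  rw [map_zero]
  change gp m F J = 0
  rcases hF m with h1 | ⟨j, h1⟩
  · rw [h1]
    rfl
  · exact h1.off hl hs hJ

theorem Ts.of_isT {B : DG W Γ} {l : List Λ} {m j : ℕ} {F : (Λ → Lt κ) → W.H B.X}
    (h : IsT χ X c f B l m j F) : Ts χ X c f B l F := by
  intro m'
  by_cases hm : m = m'
  · subst hm
    rw [gp_gp h.gr]
    exact Or.inr ⟨j, h⟩
  · exact Or.inl (funext fun J => prj_ne _ hm (h.gr J))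

theorem Ts.cC (hG : ∀ i, IsGalois W χ (X i).X (X i).act)
    (hmid : ∀ i, transcendental W (X i).X ≤ W.gr (X i).X (X i).X.dim) {B : DG W Γ} {s : Λ}
    {l : List Λ} {F : (Λ → Lt κ) → W.H ((X (c s)).prod B).X}
    (hF : Ts χ X c f ((X (c s)).prod B) l F) (n : Fin (f (c s)).s.NC) :
    Ts χ X c f B l (fun J => (f (c s)).cC B.X n (F J)) := by
  intro m
  have h1 : gp m (fun J => (f (c s)).cC B.X n (F J)) =
      fun J => (f (c s)).cC B.X n (gp (m + 2 * (f (c s)).s.jC n) F J) :=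
    funext fun J => prj_cC (f (c s)) (hmid (c s)) n m (F J)
  rw [h1]
  rcases hF (m + 2 * (f (c s)).s.jC n) with h2 | ⟨j, h2⟩
  · left
    rw [h2]
    exact funext fun J => map_zero _
  · have h3 := isT_cC hG hmid h2 n (by omega)
    rw [Nat.add_sub_cancel] at h3
    exact Or.inr ⟨_, h3⟩

theorem Ts.cT (hG : ∀ i, IsGalois W χ (X i).X (X i).act)
    (hmid : ∀ i, transcendental W (X i).X ≤ W.gr (X i).X (X i).X.dim) {B : DG W Γ} {s : Λ}
    {l : List Λ} (hs : s ∉ l) {F : (Λ → Lt κ) → W.H ((X (c s)).prod B).X}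
    (hF : Ts χ X c f ((X (c s)).prod B) l F) :
    Ts χ X c f B (l ++ [s]) (fun J => (f (c s)).cT B.X (J s) (F J)) := by
  intro m
  have h1 : gp m (fun J => (f (c s)).cT B.X (J s) (F J)) =
      fun J => (f (c s)).cT B.X (J s) (gp (m + (X (c s)).X.dim) F J) :=
    funext fun J => prj_cT (f (c s)) (hmid (c s)) (J s) m (F J)
  rw [h1]
  rcases hF (m + (X (c s)).X.dim) with h2 | ⟨j, h2⟩
  · left
    rw [h2]
    exact funext fun J => map_zero _
  · have h3 := isT_cT hG hmid hs h2 (by omega)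
    rw [Nat.add_sub_cancel] at h3
    exact Or.inr ⟨_, h3⟩

theorem gp_cw {Y : 𝒱.Obj} (p q : Λ) (m : ℕ) (F : (Λ → Lt κ) → W.H Y) :
    gp m (cw p q F) = cw p q (gp m F) := by
  funext J
  simp only [gp, cw, map_sum, map_zsmul]

theorem gp_iw {B : DG W Γ} (p q : Λ) (m : ℕ) (F : (Λ → Lt κ) → W.H B.X) :
    gp m (iw f c p q F) = iw f c p q (gp m F) := by
  funext J
  simp only [gp, iw, map_smul]

theorem Ts.contract (hG : ∀ i, IsGalois W χ (X i).X (X i).act)
    {B : DG W Γ} {l : List Λ} {F : (Λ → Lt κ) → W.H B.X} (hF : Ts χ X c f B l F) {p q : Λ}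
    (hp : p ∈ l) (hq : q ∈ l) (hpq : p ≠ q) (hc : c p = c q) (hl : l.Nodup) :
    Ts χ X c f B ((l.erase p).erase q) (cw p q F) := by
  intro m
  rw [gp_cw]
  rcases hF m with h1 | ⟨j, h1⟩
  · left
    rw [h1]
    funext J
    simp [cw]
  · exact Or.inr ⟨_, IsT.contract hG h1 hp hq hpq hc hl⟩

theorem Ts.insert (hG : ∀ i, IsGalois W χ (X i).X (X i).act)
    {B : DG W Γ} {l : List Λ} {y : (Λ → Lt κ) → W.H B.X} {p q : Λ} (hp : p ∈ l)
    (hq : q ∈ l) (hpq : p ≠ q) (hc : c p = c q) (hl : l.Nodup)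
    (hy : Ts χ X c f B ((l.erase p).erase q) y) : Ts χ X c f B l (iw f c p q y) := by
  have hperm := perm_two hp hq hpq
  have hdim : dsum X c l = (X (c p)).X.dim + ((X (c p)).X.dim +
      dsum X c ((l.erase p).erase q)) := by
    rw [dsum_perm hperm]
    simp only [dsum, List.map_cons, List.sum_cons, hc]
  intro m
  rw [gp_iw]
  rcases hy m with h1 | ⟨j, h1⟩
  · left
    rw [h1]
    funext J
    simp [iw]
  · refine Or.inr ⟨j + (X (c p)).X.dim, IsT.insert hG hp hq hpq hc hl ?_ ?_⟩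
    · have := h1.deg
      omega
    · rwa [Nat.add_sub_cancel]

end Pool.Agent.X227.MS
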